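import Mathlib

set_option autoImplicit false

/-! Terms in the language of lattice-ordered groups and lexicographic semidirect products `R ⋊ ℤ`. -/

namespace Pool.Agent.H815

/-- Terms of the language of `l`-groups. -/
inductive Tm (I : Type) : Type
  | var : I → Tm I
  | one : Tm I
  | mul : Tm I → Tm I → Tm I
  | inv : Tm I → Tm I
  | sup : Tm I → Tm I → Tm I

namespace Tm

variable {I J : Type}

/-- Evaluation; a variable is interpreted by the positive part of the assignment. -/
def ev {H : Type} [Group H] [Lattice H] (φ : I → H) : Tm I → H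
  | var i => φ i ⊔ 1
  | one => 1
  | mul a b => ev φ a * ev φ b
  | inv a => (ev φ a)⁻¹
  | sup a b => ev φ a ⊔ ev φ b

/-- Variables. -/
def vars [DecidableEq I] : Tm I → Finset I
  | var i => {i}
  | one => ∅
  | mul a b => vars a ∪ vars b
  | inv a => vars a
  | sup a b => vars a ∪ vars b

/-- Substitution of variables by variables or `1`. -/
def subst (f : I → Option J) : Tm I → Tm J
  | var i => match f i with
    | some j => var j
    | none => one
  | one => one
  | mul a b => mul (subst f a) (subst f b)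
  | inv a => inv (subst f a)
  | sup a b => sup (subst f a) (subst f b)

lemma ev_subst {H : Type} [Group H] [Lattice H] (f : I → Option J) (φ : J → H) (ψ : I → H)
    (h : ∀ i, ψ i = (f i).elim 1 φ) (τ : Tm I) :
    (subst f τ).ev φ = τ.ev ψ := by
  induction τ with
  | var i =>
    simp only [subst, ev]
    rw [h i]
    cases f i <;> simp [ev]
  | one => rfl
  | mul a b iha ihb => simp only [subst, ev, iha, ihb]
  | inv a iha => simp only [subst, ev, iha]
  | sup a b iha ihb => simp only [subst, ev, iha, ihb]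

lemma ev_congr [DecidableEq I] {H : Type} [Group H] [Lattice H] {φ ψ : I → H} (τ : Tm I)
    (h : ∀ i ∈ τ.vars, φ i = ψ i) : τ.ev φ = τ.ev ψ := by
  induction τ with
  | var i => simp only [ev]; rw [h i (by simp [vars])]
  | one => rfl
  | mul a b iha ihb =>
    simp only [ev]
    rw [iha fun i hi => h i (by simp [vars, hi]), ihb fun i hi => h i (by simp [vars, hi])]
  | inv a iha => simp only [ev]; rw [iha h]
  | sup a b iha ihb =>
    simp only [ev]
    rw [iha fun i hi => h i (by simp [vars, hi]), ihb fun i hi => h i (by simp [vars, hi])]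

/-- Naturality for homomorphisms of `l`-groups. -/
lemma ev_map {H H' : Type} [Group H] [Lattice H] [Group H'] [Lattice H'] (f : H →* H')
    (hf : ∀ x y, f (x ⊔ y) = f x ⊔ f y) (φ : I → H) (τ : Tm I) :
    f (τ.ev φ) = τ.ev (fun i => f (φ i)) := by
  induction τ with
  | var i => simp only [ev, hf, map_one]
  | one => simp only [ev, map_one]
  | mul a b iha ihb => simp only [ev, map_mul, iha, ihb]
  | inv a iha => simp only [ev, map_inv, iha]
  | sup a b iha ihb => simp only [ev, hf, iha, ihb]

/-- Naturality for monotone homomorphisms of totally ordered groups. -/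
lemma ev_mono {H H' : Type} [Group H] [LinearOrder H] [Group H'] [LinearOrder H'] (f : H →* H')
    (hf : Monotone f) (φ : I → H) (τ : Tm I) :
    f (τ.ev φ) = τ.ev (fun i => f (φ i)) :=
  ev_map f (fun x y => hf.map_sup x y) φ τ

lemma ev_one {H : Type} [Group H] [Lattice H] (τ : Tm I) : τ.ev (fun _ => (1 : H)) = 1 := by
  induction τ with
  | var i => simp [ev]
  | one => rfl
  | mul a b iha ihb => simp [ev, iha, ihb]
  | inv a iha => simp [ev, iha]
  | sup a b iha ihb => simp [ev, iha, ihb]

end Tm

/-- An action of `ℤ` on an ordered abelian group by order automorphisms. -/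
structure ZAct (R : Type) [AddCommGroup R] [LinearOrder R] where
  a : ℤ → R → R
  zero : ∀ r, a 0 r = r
  comp : ∀ m n r, a (m + n) r = a m (a n r)
  add : ∀ n r s, a n (r + s) = a n r + a n s
  lt : ∀ n r s, r < s → a n r < a n s

namespace ZAct
variable {R : Type} [AddCommGroup R] [LinearOrder R] (α : ZAct R)

@[simp] lemma a_zero' (n : ℤ) : α.a n 0 = 0 := by
  have := α.add n 0 0
  simpa using this

lemma a_neg (n : ℤ) (r : R) : α.a n (-r) = - α.a n r := by
  have := α.add n r (-r)
  rw [add_neg_cancel, a_zero'] at this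
  exact eq_neg_of_add_eq_zero_right this.symm

lemma le (n : ℤ) {r s : R} (h : r ≤ s) : α.a n r ≤ α.a n s := by
  rcases h.eq_or_lt with h | h
  · rw [h]
  · exact (α.lt n r s h).le

end ZAct

/-- The semidirect product `R ⋊ ℤ`. -/
@[ext] structure SD {R : Type} [AddCommGroup R] [LinearOrder R] (α : ZAct R) : Type where
  r : R
  n : ℤ

namespace SD

variable {R : Type} [AddCommGroup R] [LinearOrder R] [IsOrderedAddMonoid R] {α : ZAct R}

instance : Mul (SD α) := ⟨fun x y => ⟨x.r + α.a x.n y.r, x.n + y.n⟩⟩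
instance : One (SD α) := ⟨⟨0, 0⟩⟩
instance : Inv (SD α) := ⟨fun x => ⟨-(α.a (-x.n) x.r), -x.n⟩⟩

omit [IsOrderedAddMonoid R] in
lemma mul_def (x y : SD α) : x * y = ⟨x.r + α.a x.n y.r, x.n + y.n⟩ := rfl
omit [IsOrderedAddMonoid R] in
lemma one_def : (1 : SD α) = ⟨0, 0⟩ := rfl
omit [IsOrderedAddMonoid R] in
lemma inv_def (x : SD α) : x⁻¹ = ⟨-(α.a (-x.n) x.r), -x.n⟩ := rfl
omit [IsOrderedAddMonoid R] in
@[simp] lemma one_r : (1 : SD α).r = 0 := rfl
omit [IsOrderedAddMonoid R] in
@[simp] lemma one_n : (1 : SD α).n = 0 := rfl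
omit [IsOrderedAddMonoid R] in
@[simp] lemma mul_r (x y : SD α) : (x * y).r = x.r + α.a x.n y.r := rfl
omit [IsOrderedAddMonoid R] in
@[simp] lemma mul_n (x y : SD α) : (x * y).n = x.n + y.n := rfl
omit [IsOrderedAddMonoid R] in
@[simp] lemma inv_r (x : SD α) : (x⁻¹).r = -(α.a (-x.n) x.r) := rfl
omit [IsOrderedAddMonoid R] in
@[simp] lemma inv_n (x : SD α) : (x⁻¹).n = -x.n := rfl

instance : Group (SD α) :=
  Group.ofLeftAxioms
    (by
      intro x y z
      ext
      · simp [α.add, α.comp, add_assoc]
      · simp [add_assoc])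
    (by intro x; ext <;> simp [α.zero])
    (by intro x; ext <;> simp)

/-- To the lexicographic product, `ℤ` first. -/
def toL (x : SD α) : ℤ ×ₗ R := toLex (x.n, x.r)

omit [IsOrderedAddMonoid R] in
lemma toL_inj : Function.Injective (toL (α := α)) := by
  intro x y h
  have h' : (x.n, x.r) = (y.n, y.r) := toLex.injective h
  rw [Prod.mk.injEq] at h'
  ext
  · exact h'.2
  · exact h'.1

noncomputable instance : LinearOrder (SD α) := LinearOrder.lift' toL toL_inj

omit [IsOrderedAddMonoid R] in
lemma le_iff {x y : SD α} : x ≤ y ↔ x.n < y.n ∨ x.n = y.n ∧ x.r ≤ y.r := by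
  change toL x ≤ toL y ↔ _
  rw [toL, toL, Prod.Lex.toLex_le_toLex]

omit [IsOrderedAddMonoid R] in
lemma lt_iff {x y : SD α} : x < y ↔ x.n < y.n ∨ x.n = y.n ∧ x.r < y.r := by
  change toL x < toL y ↔ _
  rw [toL, toL, Prod.Lex.toLex_lt_toLex]

instance : MulLeftMono (SD α) := ⟨by
  intro c x y h
  change c * x ≤ c * y
  rw [le_iff] at h ⊢
  simp only [mul_n, mul_r]
  rcases h with h | ⟨h, h'⟩
  · left; omega
  · right
    exact ⟨by omega, add_le_add_right (α.le _ h') _⟩⟩

instance : MulRightMono (SD α) := ⟨by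
  intro c x y h
  change x * c ≤ y * c
  rw [le_iff] at h ⊢
  simp only [mul_n, mul_r]
  rcases h with h | ⟨h, h'⟩
  · left; omega
  · right
    rw [h]
    exact ⟨rfl, add_le_add_left h' _⟩⟩

end SD

end Pool.Agent.H815
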