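import Mathlib

set_option autoImplicit false
set_option linter.unusedSectionVars false
set_option linter.unusedVariables false

namespace Pool.Agent.H815

open Cardinal

/-- `ℵ_{n+1}`. -/
noncomputable def al (n : ℕ) : Cardinal.{0} := aleph ((n : Ordinal) + 1)

lemma al_succ (n : ℕ) : al (n + 1) = Order.succ (al n) := by
  rw [al, al, succ_aleph]
  push_cast
  rfl

lemma al_zero : al 0 = aleph 1 := by simp [al]

lemma aleph0_le_al (n : ℕ) : ℵ₀ ≤ al n := aleph0_le_aleph _

lemma al_mono {n m : ℕ} (h : n ≤ m) : al n ≤ al m := by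
  rw [al, al, aleph_le_aleph]
  gcongr

/-- Kuratowski's free set theorem. -/
lemma free_set {I : Type} [DecidableEq I] (n : ℕ) : ∀ (F : Finset I → Set I)
    (_ : ∀ T, #(F T) ≤ al 0) (U : Set I) (_ : al n ≤ #U),
    ∃ S : Finset I, S.card = n ∧ ↑S ⊆ U ∧ ∀ s ∈ S, s ∉ F (S.erase s) := by
  induction n with
  | zero =>
    intro F hF U hU
    exact ⟨∅, rfl, by simp, by simp⟩
  | succ n ih =>
    intro F hF U hU
    obtain ⟨V, hVU, hV⟩ := le_mk_iff_exists_subset.1 ((al_mono (Nat.le_succ n)).trans hU)
    classical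
    have hVinf : Infinite V := by
      rw [infinite_iff, hV]; exact aleph0_le_al n
    let E : Set I := ⋃ T : Finset V, F (T.map (Function.Embedding.subtype _))
    have hE : #E ≤ al n := by
      refine (mk_iUnion_le _).trans ?_
      rw [mk_finset_of_infinite, hV]
      refine (mul_le_mul_right (ciSup_le' fun T => (hF _).trans (al_mono (Nat.zero_le n))) _).trans ?_
      rw [mul_eq_self (aleph0_le_al n)]
    have hlt : #(V ∪ E : Set I) < #U := by
      refine lt_of_le_of_lt (mk_union_le _ _) ?_
      rw [hV]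
      refine lt_of_le_of_lt (add_le_add_right hE _) ?_
      rw [add_eq_self (aleph0_le_al n)]
      refine lt_of_lt_of_le ?_ hU
      rw [al_succ]
      exact Order.lt_succ _
    obtain ⟨x, hxU, hx⟩ : ∃ x ∈ U, x ∉ V ∪ E := by
      by_contra hc
      push Not at hc
      exact absurd (mk_le_mk_of_subset hc) (not_le.2 hlt)
    rw [Set.mem_union, not_or] at hx
    obtain ⟨S, hS1, hS2, hS3⟩ := ih (fun T => F (insert x T)) (fun T => hF _) V (by rw [hV])
    have hxS : x ∉ S := fun h => hx.1 (hS2 h)
    refine ⟨insert x S, ?_, ?_, ?_⟩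
    · rw [Finset.card_insert_of_notMem hxS, hS1]
    · rw [Finset.coe_insert]
      exact Set.insert_subset hxU (hS2.trans hVU)
    · intro s hs
      rw [Finset.mem_insert] at hs
      rcases hs with rfl | hs
      · rw [Finset.erase_insert hxS]
        intro h
        apply hx.2
        refine Set.mem_iUnion.2 ⟨S.subtype (· ∈ V), ?_⟩
        have : (S.subtype (· ∈ V)).map (Function.Embedding.subtype _) = S := by
          rw [Finset.subtype_map]
          exact Finset.filter_true_of_mem fun y hy => hS2 hy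
        rw [this]
        exact h
      · have hne : s ≠ x := fun h => hxS (h ▸ hs)
        rw [Finset.erase_insert_of_ne hne.symm]
        exact hS3 s hs

/-- Pigeonhole. -/
lemma big_fiber (X K : Type) (hK : ℵ₀ ≤ #K) (f : Set (X ⊕ K) → X) :
    ∃ c : X, #K ≤ #(f ⁻¹' {c}) := by
  set θ : Cardinal := Order.succ #(X ⊕ K) with hθ
  have h1 : ℵ₀ ≤ #(X ⊕ K) := by
    rw [mk_sum, lift_id, lift_id]
    exact hK.trans (le_add_left le_rfl)
  have h2 : θ ≤ #(Set (X ⊕ K)) := by
    rw [mk_set, hθ, Order.succ_le_iff]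
    exact cantor _
  have h3 : θ.IsRegular := isRegular_succ h1
  have h4 : #X < θ.ord.cof := by
    rw [h3.cof_ord, hθ, Order.lt_succ_iff, mk_sum, lift_id, lift_id]
    exact le_add_right le_rfl
  obtain ⟨c, hc⟩ := infinite_pigeonhole_card f θ h2 (h1.trans (Order.le_succ _)) h4
  refine ⟨c, le_trans ?_ hc⟩
  refine le_trans ?_ (Order.le_succ _)
  rw [mk_sum, lift_id, lift_id]
  exact le_add_left le_rfl

end Pool.Agent.H815
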