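import Pool.Agent.H815.CL9

set_option autoImplicit false
set_option linter.unusedSectionVars false
set_option linter.unusedVariables false

namespace Pool.Agent.H815

section Fam

variable {Ix : Type} (H : Ix → Type) [∀ j, Group (H j)] [∀ j, LinearOrder (H j)]
  [∀ j, MulLeftMono (H j)] [∀ j, MulRightMono (H j)] (I : Type)

/-- Evaluation points. -/
abbrev Pt : Type := Σ j : Ix, (I → H j)

/-- The relatively free `l`-group. -/
def Fr : Subgroup (∀ p : Pt H I, H p.1) where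
  carrier := {w | ∃ τ : Tm I, ∀ p, w p = τ.ev p.2}
  one_mem' := ⟨Tm.one, fun p => rfl⟩
  mul_mem' := by
    rintro x y ⟨a, ha⟩ ⟨b, hb⟩
    exact ⟨Tm.mul a b, fun p => by simp [Tm.ev, ha, hb]⟩
  inv_mem' := by
    rintro x ⟨a, ha⟩
    exact ⟨Tm.inv a, fun p => by simp [Tm.ev, ha]⟩

lemma mem_Fr (w : ∀ p : Pt H I, H p.1) : w ∈ Fr H I ↔ ∃ τ : Tm I, ∀ p, w p = τ.ev p.2 := Iff.rfl

noncomputable instance : Lattice (Fr H I) :=
  Subtype.lattice (P := fun w => w ∈ Fr H I)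
    (by
      rintro x y ⟨a, ha⟩ ⟨b, hb⟩
      exact ⟨Tm.sup a b, fun p => by simp [Tm.ev, ha, hb]⟩)
    (by
      rintro x y ⟨a, ha⟩ ⟨b, hb⟩
      refine ⟨Tm.inv (Tm.sup (Tm.inv a) (Tm.inv b)), fun p => ?_⟩
      simp only [Tm.ev, Pi.inf_apply, ha, hb]
      rw [inv_sup, inv_inv, inv_inv])

lemma Fr_le {x y : Fr H I} : x ≤ y ↔ ∀ p, x.1 p ≤ y.1 p := Iff.rfl

lemma Fr_sup (x y : Fr H I) (p : Pt H I) : (x ⊔ y).1 p = x.1 p ⊔ y.1 p := rfl

instance : MulLeftMono (Fr H I) := ⟨by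
  intro c x y h p
  exact mul_le_mul_right (h p) (c.1 p)⟩

instance : MulRightMono (Fr H I) := ⟨by
  intro c x y h p
  exact mul_le_mul_left (h p) (c.1 p)⟩

lemma Fr_normal_valued (a b : Fr H I) (ha : 1 ≤ a) (hb : 1 ≤ b) : a * b ≤ b ^ 2 * a ^ 2 := by
  intro p
  have h1 : 1 ≤ a.1 p := ha p
  have h2 : 1 ≤ b.1 p := hb p
  change a.1 p * b.1 p ≤ (b.1 p) ^ 2 * (a.1 p) ^ 2
  rcases le_total (a.1 p) (b.1 p) with h | h
  · calc a.1 p * b.1 p ≤ b.1 p * b.1 p := mul_le_mul_left h _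
      _ = (b.1 p) ^ 2 := (pow_two _).symm
      _ ≤ (b.1 p) ^ 2 * (a.1 p) ^ 2 := le_mul_of_one_le_right' (one_le_pow_of_one_le' h1 2)
  · calc a.1 p * b.1 p ≤ a.1 p * a.1 p := mul_le_mul_right h _
      _ = (a.1 p) ^ 2 := (pow_two _).symm
      _ ≤ (b.1 p) ^ 2 * (a.1 p) ^ 2 := le_mul_of_one_le_left' (one_le_pow_of_one_le' h2 2)

variable {H I}

/-- The element given by a term. -/
def el (τ : Tm I) : Fr H I := ⟨fun p => τ.ev p.2, τ, fun p => rfl⟩

lemma exists_el (w : Fr H I) : ∃ τ : Tm I, w = el τ := by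
  obtain ⟨w, τ, h⟩ := w
  exact ⟨τ, Subtype.ext (funext h)⟩

/-- Evaluation at a point. -/
def evp (p : Pt H I) : Fr H I →* H p.1 where
  toFun w := w.1 p
  map_one' := rfl
  map_mul' _ _ := rfl

lemma evp_sup (p : Pt H I) (x y : Fr H I) : evp p (x ⊔ y) = evp p x ⊔ evp p y := rfl

lemma evp_el (p : Pt H I) (τ : Tm I) : evp p (el τ) = τ.ev p.2 := rfl

/-- What the isomorphism gives at a point. -/
def Core (T : (I →₀ ℤ) → Tm I) (p : Pt H I) : Prop :=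
  ∃ (B : Type) (_ : AddCommGroup B) (_ : LinearOrder B) (_ : IsOrderedAddMonoid B) (b : I → B),
    (∀ i, 0 ≤ b i) ∧ (∀ i, 0 < b i ↔ p.2 i ⊔ 1 ≠ 1) ∧
    (∀ t, 0 < Finsupp.linearCombination ℤ b t ↔ (T t).ev p.2 ≠ 1) ∧
    (∀ t t', 0 < Finsupp.linearCombination ℤ b t → 0 < Finsupp.linearCombination ℤ b t' →
      (DomA (Finsupp.linearCombination ℤ b t) (Finsupp.linearCombination ℤ b t') ↔
        Dom ((T t).ev p.2) ((T t').ev p.2))) ∧
    (∀ t i, 0 < Finsupp.linearCombination ℤ b t →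
      (DomA (Finsupp.linearCombination ℤ b t) (b i) ↔ Dom ((T t).ev p.2) (p.2 i ⊔ 1)) ∧
      (DomA (b i) (Finsupp.linearCombination ℤ b t) ↔ Dom (p.2 i ⊔ 1) ((T t).ev p.2))) ∧
    (∀ i i', DomA (b i) (b i') ↔ Dom (p.2 i ⊔ 1) (p.2 i' ⊔ 1))

lemma core {A : Type} [CommGroup A] [Lattice A] [MulLeftMono A] [MulRightMono A]
    (e : CS (Fr H I) ≃o CS A) :
    ∃ T : (I →₀ ℤ) → Tm I, (∀ t (p : Pt H I), 1 ≤ (T t).ev p.2) ∧ ∀ p : Pt H I, Core T p := by
  have hvar : ∀ i : I, (1 : Fr H I) ≤ el (Tm.var i) := fun i p => le_sup_right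
  choose a ha hea using fun i => exists_pr e (el (Tm.var i)) (hvar i)
  let Z : (I →₀ ℤ) → A := fun t => t.prod fun i n => a i ^ n
  have h1 : ∀ t, ∃ τ : Tm I, ∃ h : (1 : Fr H I) ≤ el τ,
      e (pr (el τ) h) = pr (Z t ⊔ 1) le_sup_right := by
    intro t
    obtain ⟨w, hw, hew⟩ := exists_pr e.symm (Z t ⊔ 1) le_sup_right
    obtain ⟨τ, rfl⟩ := exists_el w
    exact ⟨τ, hw, by rw [← hew, e.apply_symm_apply]⟩
  choose T hT heT using h1
  refine ⟨T, fun t p => hT t p, ?_⟩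
  intro p
  obtain ⟨L, i1, i2, i3, ρ, r1, r2, r3⟩ := exists_point e (evp p) (evp_sup p)
  have hb : ∀ t, Finsupp.linearCombination ℤ (fun i => Additive.ofMul (ρ (a i))) t =
      Additive.ofMul (ρ (Z t)) := by
    intro t
    rw [Finsupp.linearCombination_apply]
    change _ = Additive.ofMul (ρ (t.prod fun i n => a i ^ n))
    rw [Finsupp.prod, map_prod, ofMul_prod, Finsupp.sum]
    refine Finset.sum_congr rfl fun i _ => ?_
    rw [map_zpow, ofMul_zpow]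
  have hdom : ∀ x y : L, DomA (Additive.ofMul x) (Additive.ofMul y) ↔ Dom x y := by
    intro x y
    exact Iff.rfl
  have hpos : ∀ x : L, 0 < Additive.ofMul x ↔ 1 < x := fun x => Iff.rfl
  have hae : ∀ i, e (pr (el (Tm.var i)) (hvar i)) = pr (a i ⊔ 1) le_sup_right := by
    intro i
    rw [hea i]
    congr 1
    exact (sup_eq_left.2 (ha i)).symm
  have hZ : ∀ t, 1 < ρ (Z t) → ρ (Z t ⊔ 1) = ρ (Z t) := by
    intro t ht
    rw [r1, map_one]
    exact sup_eq_left.2 ht.le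
  refine ⟨Additive L, inferInstance, inferInstance, inferInstance,
    fun i => Additive.ofMul (ρ (a i)), ?_, ?_, ?_, ?_, ?_, ?_⟩
  · intro i
    exact one_le_map r1 (ha i)
  · intro i
    rw [hpos, r2 (a i) _ (hvar i) (hae i)]
    rfl
  · intro t
    rw [hb, hpos, r2 (Z t) _ (hT t) (heT t)]
    rfl
  · intro t t' h h'
    rw [hb, hpos] at h h'
    rw [hb, hb, hdom, ← hZ t h, ← hZ t' h',
      r3 _ _ _ _ (hT t) (hT t') le_sup_right le_sup_right (heT t) (heT t')]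
    rfl
  · intro t i h
    rw [hb, hpos] at h
    rw [hb, hdom, hdom, ← hZ t h,
      r3 _ _ _ _ (hT t) (hvar i) le_sup_right (ha i) (heT t) (hea i),
      r3 _ _ _ _ (hvar i) (hT t) (ha i) le_sup_right (hea i) (heT t)]
    exact ⟨Iff.rfl, Iff.rfl⟩
  · intro i i'
    rw [hdom, r3 _ _ _ _ (hvar i) (hvar i') (ha i) (ha i') (hea i) (hea i')]
    rfl

end Fam

end Pool.Agent.H815
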