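import Pool.Agent.H815.CL11

set_option autoImplicit false
set_option linter.unusedSectionVars false
set_option linter.unusedVariables false

namespace Pool.Agent.H815

open Classical in
/-- Assignments supported on twelve positions. -/
noncomputable def asg {I K : Type} [One K] (s : ℕ → I) (h : ℕ → K) : I → K :=
  fun x => if hx : ∃ k, k < 12 ∧ s k = x then h hx.choose else 1

lemma asg_s {I K : Type} [One K] {s : ℕ → I} (hs : ∀ i < 12, ∀ j < 12, s i = s j → i = j)
    (h : ℕ → K) {k : ℕ} (hk : k < 12) : asg s h (s k) = h k := by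
  have hx : ∃ k', k' < 12 ∧ s k' = s k := ⟨k, hk, rfl⟩
  rw [asg, dif_pos hx]
  congr 1
  exact hs _ hx.choose_spec.1 _ hk hx.choose_spec.2

lemma asg_out {I K : Type} [One K] {s : ℕ → I} (h : ℕ → K) {x : I}
    (hx : ∀ k < 12, s k ≠ x) : asg s h x = 1 := by
  rw [asg, dif_neg]
  rintro ⟨k, hk, e⟩
  exact hx k hk e

lemma asg_ge {I K : Type} [One K] [Preorder K] {s : ℕ → I} {h : ℕ → K} (hh : ∀ k, 1 ≤ h k) (x : I) :
    1 ≤ asg s h x := by
  rw [asg]
  split_ifs
  · exact hh _
  · exact le_rfl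

/-- Extension by `1`. -/
def ext1 {K : Type} [One K] {m : ℕ} (g : Fin m → K) (k : ℕ) : K :=
  if hk : k < m then g ⟨k, hk⟩ else 1

lemma ext1_ge {K : Type} [One K] [Preorder K] {m : ℕ} {g : Fin m → K} (hg : ∀ i, 1 ≤ g i) (k : ℕ) :
    1 ≤ ext1 g k := by
  rw [ext1]; split_ifs
  · exact hg _
  · exact le_rfl

lemma ext1_fin {K : Type} [One K] {m : ℕ} (g : Fin m → K) (k : Fin m) : ext1 g k = g k := by
  rw [ext1, dif_pos k.2]

/-- Forms at positions. -/
noncomputable def emb {I : Type} (s : ℕ → I) (u : ℕ → ℕ) {m : ℕ} (t : Fin m → ℤ) : I →₀ ℤ :=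
  ∑ k : Fin m, Finsupp.single (s (u k)) (t k)

lemma lc_emb {I B : Type} [AddCommGroup B] (s : ℕ → I) (u : ℕ → ℕ) {m : ℕ} (t : Fin m → ℤ)
    (b : I → B) : Finsupp.linearCombination ℤ b (emb s u t) = ∑ k : Fin m, t k • b (s (u k)) := by
  rw [emb, map_sum]
  refine Finset.sum_congr rfl fun k _ => ?_
  rw [Finsupp.linearCombination_single]

lemma mem_emb {I : Type} (s : ℕ → I) (u : ℕ → ℕ) {m : ℕ} (t : Fin m → ℤ) {x : I}
    (hx : x ∈ (emb s u t).support) : ∃ k : Fin m, s (u k) = x := by
  by_contra hc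
  push Not at hc
  rw [Finsupp.mem_support_iff] at hx
  apply hx
  rw [emb, Finsupp.finsetSum_apply]
  refine Finset.sum_eq_zero fun k _ => ?_
  exact Finsupp.single_eq_of_ne (hc k).symm

section Comb

variable {Ix : Type} {H : Ix → Type} [∀ j, Group (H j)] [∀ j, LinearOrder (H j)]
  [∀ j, MulLeftMono (H j)] [∀ j, MulRightMono (H j)] {I : Type} [DecidableEq I]

lemma good_of (T : (I →₀ ℤ) → Tm I) (hge : ∀ t (p : Pt H I), 1 ≤ (T t).ev p.2)
    (hcore : ∀ p : Pt H I, Core T p) (s : ℕ → I)
    (hs : ∀ i < 12, ∀ j < 12, s i = s j → i = j)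
    (hfree : ∀ t : I →₀ ℤ, (∀ x ∈ t.support, ∃ k < 12, s k = x) → ∀ k < 12, s k ∉ t.support →
      s k ∉ (T t).vars)
    (hali : ∀ (j : Ix) (φ : I → H j), (∀ i, 1 ≤ φ i) → (∀ x, (∀ k < 12, s k ≠ x) → φ x = 1) →
      ∀ i < 12, ∀ i' < 12, φ (s i) = φ (s i') →
      (T (Finsupp.single (s i) 1 - Finsupp.single (s i') 1)).ev φ = 1) :
    ∃ W : ∀ m : ℕ, (Fin m → ℤ) → Tm (Fin m), ∀ j, Good W (H j) := by
  classical
  -- locality
  have hloc : ∀ (j : Ix) (t : I →₀ ℤ) (φ ψ : I → H j), (∀ x ∈ t.support, ∃ k < 12, s k = x) →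
      (∀ x ∈ t.support, φ x = ψ x) → (∀ x, (∀ k < 12, s k ≠ x) → φ x = ψ x) →
      (T t).ev φ = (T t).ev ψ := by
    intro j t φ ψ ht h1 h2
    apply Tm.ev_congr
    intro x hx
    by_cases hxs : ∃ k < 12, s k = x
    · obtain ⟨k, hk, rfl⟩ := hxs
      by_cases hkt : s k ∈ t.support
      · exact h1 _ hkt
      · exact absurd hx (hfree t ht k hk hkt)
    · push Not at hxs
      exact h2 x hxs
  let f : ∀ m : ℕ, I → Option (Fin m) := fun m x =>
    if hx : ∃ k, k < 12 ∧ s k = x then (if hk : hx.choose < m then some ⟨hx.choose, hk⟩ else none)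
    else none
  have hf : ∀ (m : ℕ) {K : Type} [One K] (g : Fin m → K) (x : I),
      asg s (ext1 g) x = (f m x).elim 1 g := by
    intro m K _ g x
    simp only [f, asg]
    by_cases hx : ∃ k, k < 12 ∧ s k = x
    · rw [dif_pos hx, dif_pos hx, ext1]
      by_cases hk : hx.choose < m
      · rw [dif_pos hk, dif_pos hk]; rfl
      · rw [dif_neg hk, dif_neg hk]; rfl
    · rw [dif_neg hx, dif_neg hx]; rfl
  let W : ∀ m : ℕ, (Fin m → ℤ) → Tm (Fin m) := fun m t => (T (emb s id t)).subst (f m)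
  have hW : ∀ (j : Ix) (m : ℕ) (t : Fin m → ℤ) (g : Fin m → H j),
      (W m t).ev g = (T (emb s id t)).ev (asg s (ext1 g)) := by
    intro j m t g
    exact Tm.ev_subst (f m) g _ (fun i => hf m g i) _
  -- alignment of the values
  have hb : ∀ (j : Ix) (φ : I → H j), (∀ i, 1 ≤ φ i) → (∀ x, (∀ k < 12, s k ≠ x) → φ x = 1) →
      ∀ (B : Type) [AddCommGroup B] [LinearOrder B] [IsOrderedAddMonoid B] (b : I → B),
      (∀ t, 0 < Finsupp.linearCombination ℤ b t ↔ (T t).ev φ ≠ 1) →
      ∀ i < 12, ∀ i' < 12, φ (s i) = φ (s i') → b (s i) = b (s i') := by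
    intro j φ h1 h2 B _ _ _ b h3 i hi i' hi' he
    have key : ∀ i < 12, ∀ i' < 12, φ (s i) = φ (s i') → b (s i) ≤ b (s i') := by
      intro i hi i' hi' he
      have h4 := hali j φ h1 h2 i hi i' hi' he
      have h5 := (h3 (Finsupp.single (s i) 1 - Finsupp.single (s i') 1)).not.2 (not_not.2 h4)
      rw [map_sub, Finsupp.linearCombination_single, Finsupp.linearCombination_single, one_smul,
        one_smul, sub_pos, not_lt] at h5
      exact h5
    exact le_antisymm (key i hi i' hi' he) (key i' hi' i hi he.symm)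
  have hDomEq : ∀ (j : Ix) (φ : I → H j) (B : Type) [AddCommGroup B] [LinearOrder B]
      [IsOrderedAddMonoid B] (b : I → B),
      (∀ t, 0 < Finsupp.linearCombination ℤ b t ↔ (T t).ev φ ≠ 1) →
      (∀ t t', 0 < Finsupp.linearCombination ℤ b t → 0 < Finsupp.linearCombination ℤ b t' →
      (DomA (Finsupp.linearCombination ℤ b t) (Finsupp.linearCombination ℤ b t') ↔
        Dom ((T t).ev φ) ((T t').ev φ))) → ∀ t t',
      Finsupp.linearCombination ℤ b t = Finsupp.linearCombination ℤ b t' →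
      Dom ((T t).ev φ) ((T t').ev φ) := by
    intro j φ B _ _ _ b h1 h2 t t' he
    by_cases hp : 0 < Finsupp.linearCombination ℤ b t
    · refine (h2 t t' hp (he ▸ hp)).1 ?_
      rw [he]
      exact ⟨1, by simp⟩
    · have e1 : (T t).ev φ = 1 := by
        by_contra hc; exact hp ((h1 t).2 hc)
      have e2 : (T t').ev φ = 1 := by
        by_contra hc; exact hp (he ▸ (h1 t').2 hc)
      rw [e1, e2]
      exact Dom.refl _
  refine ⟨W, fun j => ?_⟩
  constructor
  · -- ge
    intro m hm g hg t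
    rw [hW]
    exact hge _ ⟨j, asg s (ext1 g)⟩
  · -- main
    intro m hm g hg
    obtain ⟨B, i1, i2, i3, b, k1, k2, k3, k4, k5, k6⟩ := hcore ⟨j, asg s (ext1 g)⟩
    refine ⟨B, i1, i2, i3, fun i => b (s i), fun i => k1 _, ?_, ?_⟩
    · intro t
      have := k3 (emb s id t)
      rw [lc_emb] at this
      rw [hW]
      exact this
    · intro t t' h h'
      have := k4 (emb s id t) (emb s id t')
      rw [lc_emb, lc_emb] at this
      rw [hW, hW]
      exact this h h'
  · -- sing
    intro m hm g hg i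
    obtain ⟨B, i1, i2, i3, b, k1, k2, k3, k4, k5, k6⟩ := hcore ⟨j, asg s (ext1 g)⟩
    have hlc : Finsupp.linearCombination ℤ b (emb s id (Pi.single i 1 : Fin m → ℤ)) =
        b (s i) := by
      rw [lc_emb, Finset.sum_eq_single i]
      · simp
      · intro k _ hk
        rw [Pi.single_eq_of_ne hk, zero_smul]
      · simp
    have hgi : asg s (ext1 g) (s i) ⊔ 1 = g i := by
      rw [asg_s hs _ (lt_of_lt_of_le i.2 (hm.trans (by norm_num))), ext1_fin]
      exact sup_eq_left.2 (hg i)
    rw [hW]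
    by_cases hp : 0 < b (s i)
    · have h5 := k5 (emb s id (Pi.single i 1 : Fin m → ℤ)) (s i) (by rw [hlc]; exact hp)
      rw [hlc] at h5
      simp only [hgi] at h5
      exact ⟨h5.1.1 ⟨1, by simp⟩, h5.2.1 ⟨1, by simp⟩⟩
    · have e1 : (T (emb s id (Pi.single i 1 : Fin m → ℤ))).ev (asg s (ext1 g)) = 1 := by
        by_contra hc
        have := (k3 _).2 hc
        rw [hlc] at this
        exact hp this
      have e2 : g i = 1 := by
        by_contra hc
        apply hp
        rw [k2]
        simp only [hgi]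
        exact hc
      rw [e1, e2]
      exact ⟨Dom.refl _, Dom.refl _⟩
  · -- rei
    intro m hm m' hm' σ g hg t
    set g' : Fin m' → H j := fun k => g (σ k) with hg'
    have hg'1 : ∀ k, 1 ≤ g' k := fun k => hg _
    let h2 : ℕ → H j := fun k => if k < 6 then ext1 g' k else ext1 g' (k - 6)
    let h4 : ℕ → H j := fun k => if k < 6 then ext1 g k else ext1 g' (k - 6)
    let u : ℕ → ℕ := fun k => 6 + k
    have sup1 : ∀ x ∈ (emb s id t).support, ∃ k < 12, s k = x := by
      intro x hx
      obtain ⟨k, rfl⟩ := mem_emb s id t hx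
      exact ⟨k, by have := k.2; omega, rfl⟩
    have supq : ∀ x ∈ (emb s u t).support, ∃ k < 12, s k = x := by
      intro x hx
      obtain ⟨k, rfl⟩ := mem_emb s u t hx
      exact ⟨u k, by have := k.2; simp only [u]; omega, rfl⟩
    have sup3 : ∀ x ∈ (emb s id (push σ t)).support, ∃ k < 12, s k = x := by
      intro x hx
      obtain ⟨k, rfl⟩ := mem_emb s id (push σ t) hx
      exact ⟨k, by have := k.2; omega, rfl⟩
    have lt12 : ∀ k : Fin m', (k : ℕ) < 12 := fun k => by have := k.2; omega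
    have lt12' : ∀ k : Fin m, (k : ℕ) < 12 := fun k => by have := k.2; omega
    have ltu : ∀ k : Fin m', u k < 12 := fun k => by have := k.2; simp only [u]; omega
    have out : ∀ (h h' : ℕ → H j) (x : I), (∀ k < 12, s k ≠ x) → asg s h x = asg s h' x := by
      intro h h' x hx
      rw [asg_out h hx, asg_out h' hx]
    -- E1
    have E1 : (T (emb s id t)).ev (asg s (ext1 g')) = (T (emb s id t)).ev (asg s h2) := by
      apply hloc j _ _ _ sup1 ?_ (out _ _)
      intro x hx
      obtain ⟨k, rfl⟩ := mem_emb s id t hx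
      rw [id, asg_s hs _ (lt12 k), asg_s hs _ (lt12 k)]
      have : (k : ℕ) < 6 := lt_of_lt_of_le k.2 hm'
      simp only [h2, if_pos this]
    -- E3
    have E3 : (T (emb s u t)).ev (asg s h2) = (T (emb s u t)).ev (asg s h4) := by
      apply hloc j _ _ _ supq ?_ (out _ _)
      intro x hx
      obtain ⟨k, rfl⟩ := mem_emb s u t hx
      rw [asg_s hs _ (ltu k), asg_s hs _ (ltu k)]
      have : ¬ u k < 6 := by simp only [u]; omega
      simp only [h2, h4, if_neg this]
    -- E5
    have E5 : (T (emb s id (push σ t))).ev (asg s h4) =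
        (T (emb s id (push σ t))).ev (asg s (ext1 g)) := by
      apply hloc j _ _ _ sup3 ?_ (out _ _)
      intro x hx
      obtain ⟨k, rfl⟩ := mem_emb s id (push σ t) hx
      rw [id, asg_s hs _ (lt12' k), asg_s hs _ (lt12' k)]
      have : (k : ℕ) < 6 := lt_of_lt_of_le k.2 hm
      simp only [h4, if_pos this]
    -- E2
    have ge2 : ∀ k, 1 ≤ h2 k := by
      intro k; simp only [h2]; split_ifs
      · exact ext1_ge hg'1 _
      · exact ext1_ge hg'1 _
    have ge4 : ∀ k, 1 ≤ h4 k := by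
      intro k; simp only [h4]; split_ifs
      · exact ext1_ge hg _
      · exact ext1_ge hg'1 _
    have E2 : Dom ((T (emb s id t)).ev (asg s h2)) ((T (emb s u t)).ev (asg s h2)) ∧
        Dom ((T (emb s u t)).ev (asg s h2)) ((T (emb s id t)).ev (asg s h2)) := by
      obtain ⟨B, i1, i2, i3, b, k1, k2, k3, k4, k5, k6⟩ := hcore ⟨j, asg s h2⟩
      have he : Finsupp.linearCombination ℤ b (emb s id t) =
          Finsupp.linearCombination ℤ b (emb s u t) := by
        rw [lc_emb, lc_emb]
        refine Finset.sum_congr rfl fun k _ => ?_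
        congr 1
        refine hb j (asg s h2) (asg_ge ge2) (fun x hx => asg_out _ hx) B b k3 _ (lt12 k) _
          (ltu k) ?_
        rw [asg_s hs _ (lt12 k), asg_s hs _ (ltu k)]
        have a1 : (k : ℕ) < 6 := lt_of_lt_of_le k.2 hm'
        have a2 : ¬ u k < 6 := by simp only [u]; omega
        have a3 : u k - 6 = k := by simp only [u]; omega
        simp only [h2, if_pos a1, if_neg a2, a3]
      exact ⟨hDomEq j _ B b k3 k4 _ _ he, hDomEq j _ B b k3 k4 _ _ he.symm⟩
    -- E4
    have E4 : Dom ((T (emb s u t)).ev (asg s h4)) ((T (emb s id (push σ t))).ev (asg s h4)) ∧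
        Dom ((T (emb s id (push σ t))).ev (asg s h4)) ((T (emb s u t)).ev (asg s h4)) := by
      obtain ⟨B, i1, i2, i3, b, k1, k2, k3, k4, k5, k6⟩ := hcore ⟨j, asg s h4⟩
      have he : Finsupp.linearCombination ℤ b (emb s u t) =
          Finsupp.linearCombination ℤ b (emb s id (push σ t)) := by
        rw [lc_emb, lc_emb, sum_push σ t (fun i : Fin m => b (s (id (i : ℕ))))]
        refine Finset.sum_congr rfl fun k _ => ?_
        congr 1
        refine hb j (asg s h4) (asg_ge ge4) (fun x hx => asg_out _ hx) B b k3 _ (ltu k) _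
          (lt12' (σ k)) ?_
        change asg s h4 (s (u k)) = asg s h4 (s (σ k))
        rw [asg_s hs _ (lt12' (σ k)), asg_s hs _ (ltu k)]
        have a1 : ((σ k : Fin m) : ℕ) < 6 := lt_of_lt_of_le (σ k).2 hm
        have a2 : ¬ u k < 6 := by simp only [u]; omega
        have a3 : u k - 6 = k := by simp only [u]; omega
        simp only [h4, if_pos a1, if_neg a2, a3, ext1_fin, hg']
      exact ⟨hDomEq j _ B b k3 k4 _ _ he, hDomEq j _ B b k3 k4 _ _ he.symm⟩
    rw [hW, hW]
    constructor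
    · rw [E1]
      refine E2.1.trans ?_
      rw [E3]
      refine E4.1.trans ?_
      rw [E5]
      exact Dom.refl _
    · rw [← E5]
      refine E4.2.trans ?_
      rw [← E3]
      refine E2.2.trans ?_
      rw [← E1]
      exact Dom.refl _

end Comb

end Pool.Agent.H815
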