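import Pool.Agent.H815.CL12
import Pool.Agent.H815.CL10

set_option autoImplicit false
set_option linter.unusedSectionVars false
set_option linter.unusedVariables false

namespace Pool.Agent.H815

open Cardinal

/-- A type of cardinality `ℵ₁`. -/
abbrev TJ : Type := Quotient.out (al 0)

/-- A type of cardinality `ℵ₁₃`. -/
abbrev TK : Type := Quotient.out (al 12)

/-- Colours. -/
abbrev TX : Type := TJ → Set (ℕ × ℕ)

/-- The large part of the index set. -/
abbrev TI : Type := Set (TX ⊕ TK)

/-- The index set. -/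
abbrev TV : Type := TJ ⊕ TI

section Comb

open Classical in
lemma card_F (T : (TV →₀ ℤ) → Tm TV) (S : Finset TI) :
    #({i : TI | ∃ t : TV →₀ ℤ, (∀ x ∈ t.support, (∃ j, x = Sum.inl j) ∨ ∃ k ∈ S, x = Sum.inr k) ∧
      Sum.inr i ∈ (T t).vars} : Set TI) ≤ al 0 := by
  let ι : TJ ⊕ S → TV := Sum.map id Subtype.val
  have hι : Function.Injective ι := Function.injective_id.sumMap Subtype.val_injective
  have hsub : {i : TI | ∃ t : TV →₀ ℤ, (∀ x ∈ t.support, (∃ j, x = Sum.inl j) ∨
      ∃ k ∈ S, x = Sum.inr k) ∧ Sum.inr i ∈ (T t).vars} ⊆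
      ⋃ t' : (TJ ⊕ S) →₀ ℤ, {i : TI | Sum.inr i ∈ (T (Finsupp.mapDomain ι t')).vars} := by
    rintro i ⟨t, ht, hi⟩
    have hr : ↑t.support ⊆ Set.range ι := by
      intro x hx
      rcases ht x hx with ⟨j, rfl⟩ | ⟨k, hk, rfl⟩
      · exact ⟨Sum.inl j, rfl⟩
      · exact ⟨Sum.inr ⟨k, hk⟩, rfl⟩
    refine Set.mem_iUnion.2 ⟨Finsupp.comapDomain ι t hι.injOn, ?_⟩
    rw [Set.mem_ofPred_eq, Finsupp.mapDomain_comapDomain ι hι t hr]
    exact hi
  have hJ : #TJ = al 0 := mk_out _
  have hJinf : Infinite TJ := by rw [infinite_iff, hJ]; exact aleph0_le_al 0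
  have hidx : #((TJ ⊕ S) →₀ ℤ) ≤ al 0 := by
    rw [mk_finsupp_of_infinite]
    refine max_le ?_ ?_
    · rw [mk_sum, lift_id, lift_id, hJ]
      have : #S ≤ al 0 := (mk_le_aleph0 (α := S)).trans (aleph0_le_al 0)
      refine (add_le_add_right this _).trans ?_
      rw [add_eq_self (aleph0_le_al 0)]
    · exact mk_le_aleph0.trans (aleph0_le_al 0)
  refine (mk_le_mk_of_subset hsub).trans ((mk_iUnion_le _).trans ?_)
  have hfin : ∀ t' : (TJ ⊕ S) →₀ ℤ,
      #({i : TI | Sum.inr i ∈ (T (Finsupp.mapDomain ι t')).vars} : Set TI) ≤ al 0 := by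
    intro t'
    have hf : ({i : TI | Sum.inr i ∈ (T (Finsupp.mapDomain ι t')).vars} : Set TI).Finite := by
      have : ({i : TI | Sum.inr i ∈ (T (Finsupp.mapDomain ι t')).vars} : Set TI) =
          Sum.inr ⁻¹' (↑(T (Finsupp.mapDomain ι t')).vars : Set TV) := rfl
      rw [this]
      exact Set.Finite.preimage Sum.inr_injective.injOn (Finset.finite_toSet _)
    exact (le_aleph0_iff_set_countable.2 hf.countable).trans (aleph0_le_al 0)
  refine (mul_le_mul' hidx (ciSup_le' hfin)).trans ?_
  rw [mul_eq_self (aleph0_le_al 0)]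

open Classical in
lemma exists_j (T : (TV →₀ ℤ) → Tm TV) (S : Finset TI) :
    ∃ j : TJ, ∀ t : TV →₀ ℤ, (∀ x ∈ t.support, ∃ k ∈ S, x = Sum.inr k) →
      Sum.inl j ∉ (T t).vars := by
  let ι : S → TV := fun k => Sum.inr k.1
  have hι : Function.Injective ι := fun a b h => Subtype.val_injective (Sum.inr_injective h)
  have hc : (⋃ t' : S →₀ ℤ, {j : TJ | Sum.inl j ∈ (T (Finsupp.mapDomain ι t')).vars}).Countable := by
    refine Set.countable_iUnion fun t' => Set.Finite.countable ?_
    have : ({i : TJ | Sum.inl i ∈ (T (Finsupp.mapDomain ι t')).vars} : Set TJ) =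
        Sum.inl ⁻¹' (↑(T (Finsupp.mapDomain ι t')).vars : Set TV) := rfl
    rw [this]
    exact Set.Finite.preimage Sum.inl_injective.injOn (Finset.finite_toSet _)
  have hne : (⋃ t' : S →₀ ℤ, {j : TJ | Sum.inl j ∈ (T (Finsupp.mapDomain ι t')).vars}) ≠
      Set.univ := by
    intro h
    rw [h] at hc
    have h1 : #TJ ≤ ℵ₀ := by
      rw [← mk_univ]
      exact le_aleph0_iff_set_countable.2 hc
    rw [mk_out, al_zero] at h1
    exact absurd h1 (not_le.2 aleph0_lt_aleph_one)
  obtain ⟨j, hj⟩ := (Set.ne_univ_iff_exists_notMem _).1 hne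
  refine ⟨j, fun t ht hjt => hj ?_⟩
  have hr : ↑t.support ⊆ Set.range ι := by
    intro x hx
    obtain ⟨k, hk, rfl⟩ := ht x hx
    exact ⟨⟨k, hk⟩, rfl⟩
  refine Set.mem_iUnion.2 ⟨Finsupp.comapDomain ι t hι.injOn, ?_⟩
  rw [Set.mem_ofPred_eq, Finsupp.mapDomain_comapDomain ι hι t hr]
  exact hjt

variable {Ix : Type} {H : Ix → Type} [∀ j, Group (H j)] [∀ j, LinearOrder (H j)]
  [∀ j, MulLeftMono (H j)] [∀ j, MulRightMono (H j)]

open Classical in
theorem exists_good (j₀ : Ix) (c : H j₀) (hc : 1 < c)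
    (harch : ∀ (I : Type) (φ : I → H j₀), (∀ i, φ i = 1 ∨ φ i = c) → ∀ τ : Tm I,
      1 ≤ τ.ev φ → τ.ev φ ≠ 1 → Dom c (τ.ev φ))
    (T : (TV →₀ ℤ) → Tm TV) (hge : ∀ t (p : Pt H TV), 1 ≤ (T t).ev p.2)
    (hcore : ∀ p : Pt H TV, Core T p) :
    ∃ W : ∀ m : ℕ, (Fin m → ℤ) → Tm (Fin m), ∀ j, Good W (H j) := by
  let f : TI → TX := fun i j => {nm | (T (nm.1 • Finsupp.single (Sum.inr i) 1 -
    nm.2 • Finsupp.single (Sum.inl j) 1)).ev
      (fun x => if x = Sum.inr i ∨ x = Sum.inl j then c else 1) ≠ 1}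
  obtain ⟨col, hcol⟩ := big_fiber TX TK (by rw [mk_out]; exact aleph0_le_al 12) f
  rw [mk_out] at hcol
  obtain ⟨S, hS1, hS2, hS3⟩ := free_set 12 _ (card_F T) (f ⁻¹' {col}) hcol
  have hfr : ∀ t : TV →₀ ℤ, (∀ x ∈ t.support, (∃ j, x = Sum.inl j) ∨ ∃ k ∈ S, x = Sum.inr k) →
      ∀ i ∈ S, Sum.inr i ∉ t.support → Sum.inr i ∉ (T t).vars := by
    intro t ht i hi hit hiv
    apply hS3 i hi
    refine ⟨t, fun x hx => ?_, hiv⟩
    rcases ht x hx with h | ⟨k, hk, rfl⟩
    · exact Or.inl h
    · right
      refine ⟨k, Finset.mem_erase.2 ⟨?_, hk⟩, rfl⟩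
      rintro rfl
      exact hit hx
  obtain ⟨js, hjs⟩ := exists_j T S
  let e := S.equivFinOfCardEq hS1
  let s : ℕ → TV := fun k => if hk : k < 12 then Sum.inr (e.symm ⟨k, hk⟩).1 else Sum.inr ∅
  have hsk : ∀ (k : ℕ) (hk : k < 12), s k = Sum.inr (e.symm ⟨k, hk⟩).1 := by
    intro k hk; simp only [s, dif_pos hk]
  have hsS : ∀ k < 12, ∃ a ∈ S, s k = Sum.inr a := by
    intro k hk
    exact ⟨_, (e.symm ⟨k, hk⟩).2, hsk k hk⟩
  have hSs : ∀ a ∈ S, ∃ k < 12, s k = Sum.inr a := by
    intro a ha
    refine ⟨(e ⟨a, ha⟩).1, (e ⟨a, ha⟩).2, ?_⟩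
    rw [hsk _ (e ⟨a, ha⟩).2]
    simp
  have hs : ∀ i < 12, ∀ j < 12, s i = s j → i = j := by
    intro i hi j hj h
    rw [hsk i hi, hsk j hj] at h
    have h1 := e.symm.injective (Subtype.val_injective (Sum.inr_injective h))
    exact congrArg Fin.val h1
  refine good_of T hge hcore s hs ?_ ?_
  · -- free
    intro t ht k hk hkt
    obtain ⟨a, ha, hka⟩ := hsS k hk
    rw [hka] at hkt ⊢
    refine hfr t ?_ a ha hkt
    intro x hx
    right
    obtain ⟨k', hk', rfl⟩ := ht x hx
    exact hsS k' hk'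
  · -- aligned
    intro j φ h1 h2 i hi i' hi' hφ
    by_cases hii : i = i'
    · subst hii
      rw [sub_self]
      obtain ⟨B, i1, i2, i3, b, k1, k2, k3, k4, k5, k6⟩ := hcore ⟨j, φ⟩
      by_contra hcon
      have := (k3 0).2 hcon
      rw [map_zero] at this
      exact lt_irrefl _ this
    obtain ⟨a, ha, hia⟩ := hsS i hi
    obtain ⟨a', ha', hia'⟩ := hsS i' hi'
    have haa : a ≠ a' := by
      rintro rfl
      exact hii (hs i hi i' hi' (hia.trans hia'.symm))
    rw [hia, hia'] at hφ ⊢
    set p : TV := Sum.inr a with hp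
    set q : TV := Sum.inr a' with hq
    have hpq : p ≠ q := fun h => haa (Sum.inr_injective h)
    have hsupp : ∀ x ∈ (Finsupp.single p 1 - Finsupp.single q 1 : TV →₀ ℤ).support,
        x = p ∨ x = q := by
      intro x hx
      by_contra hcon
      push Not at hcon
      rw [Finsupp.mem_support_iff] at hx
      apply hx
      rw [Finsupp.sub_apply, Finsupp.single_eq_of_ne hcon.1, Finsupp.single_eq_of_ne hcon.2,
        sub_zero]
    have hsuppS : ∀ x ∈ (Finsupp.single p 1 - Finsupp.single q 1 : TV →₀ ℤ).support,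
        ∃ k ∈ S, x = Sum.inr k := by
      intro x hx
      rcases hsupp x hx with rfl | rfl
      · exact ⟨a, ha, rfl⟩
      · exact ⟨a', ha', rfl⟩
    -- the base point
    let φ₀ : TV → H j₀ := fun x => if x = p ∨ x = q ∨ x = Sum.inl js then c else 1
    have hφ₀ : ∀ x, φ₀ x = 1 ∨ φ₀ x = c := by
      intro x; simp only [φ₀]; split_ifs
      · right; rfl
      · left; rfl
    have e1 : φ₀ p = c := by simp [φ₀]
    have e2 : φ₀ q = c := by simp [φ₀]
    have e3 : φ₀ (Sum.inl js) = c := by simp [φ₀]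
    have hc1 : c ⊔ 1 = c := sup_eq_left.2 hc.le
    have step2 : (T (Finsupp.single p 1 - Finsupp.single q 1)).ev φ₀ = 1 := by
      obtain ⟨B, i1, i2, i3, b, k1, k2, k3, k4, k5, k6⟩ := hcore ⟨j₀, φ₀⟩
      have hβ : 0 < b (Sum.inl js) := by
        rw [k2]; simp only [e3, hc1]; exact hc.ne'
      have hD : 0 < b p := by
        rw [k2]; simp only [e1, hc1]; exact hc.ne'
      have hD' : 0 < b q := by
        rw [k2]; simp only [e2, hc1]; exact hc.ne'
      -- cut relation
      have cut : ∀ (a₁ a₂ : TI), a₁ ∈ S → a₂ ∈ S → a₁ ≠ a₂ →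
          (∀ x, φ₀ x = if x = Sum.inr a₁ ∨ x = Sum.inr a₂ ∨ x = Sum.inl js then c else 1) →
          ∀ n m : ℕ, m • b (Sum.inl js) < n • b (Sum.inr a₁) ↔ (n, m) ∈ f a₁ js := by
        intro a₁ a₂ h₁ h₂ h₁₂ hφe n m
        set t : TV →₀ ℤ := n • Finsupp.single (Sum.inr a₁) 1 -
          m • Finsupp.single (Sum.inl js) 1 with ht
        have hlc : Finsupp.linearCombination ℤ b t =
            n • b (Sum.inr a₁) - m • b (Sum.inl js) := by
          rw [ht, map_sub, map_nsmul, map_nsmul, Finsupp.linearCombination_single,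
            Finsupp.linearCombination_single, one_smul, one_smul]
        rw [← sub_pos, ← hlc, k3]
        have hev : (T t).ev φ₀ =
            (T t).ev (fun x => if x = Sum.inr a₁ ∨ x = Sum.inl js then c else 1) := by
          apply Tm.ev_congr
          intro x hx
          rw [hφe]
          have hxa : x ≠ Sum.inr a₂ := by
            rintro rfl
            refine hfr t ?_ a₂ h₂ ?_ hx
            · intro y hy
              by_cases hy1 : y = Sum.inr a₁
              · right; exact ⟨a₁, h₁, hy1⟩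
              · by_cases hy2 : y = Sum.inl js
                · left; exact ⟨js, hy2⟩
                · exfalso
                  rw [Finsupp.mem_support_iff] at hy
                  apply hy
                  rw [ht, Finsupp.sub_apply, Finsupp.smul_apply, Finsupp.smul_apply,
                    Finsupp.single_eq_of_ne hy1, Finsupp.single_eq_of_ne hy2]
                  simp
            · rw [Finsupp.mem_support_iff, not_not, ht, Finsupp.sub_apply, Finsupp.smul_apply,
                Finsupp.smul_apply, Finsupp.single_eq_of_ne, Finsupp.single_eq_of_ne]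
              · simp
              · simp
              · intro h; exact h₁₂ (Sum.inr_injective h).symm
          simp only [hxa, false_or]
        rw [hev]
        rfl
      have hfe : f a = f a' := by
        have := hS2 ha
        have h' := hS2 ha'
        rw [Set.mem_preimage, Set.mem_singleton_iff] at this h'
        rw [this, h']
      have hcut : ∀ n m : ℕ, m • b (Sum.inl js) < n • b p ↔ m • b (Sum.inl js) < n • b q := by
        intro n m
        rw [hp, hq, cut a a' ha ha' haa (fun x => rfl) n m,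
          cut a' a ha' ha haa.symm (fun x => by
            simp only [φ₀, hp, hq]
            congr 1
            apply propext
            tauto) n m, hfe]
      have harch' : ∀ x y : TV, 0 < b x - b y → DomA (b (Sum.inl js)) (b x - b y) := by
        intro x y hxy
        have hlc : Finsupp.linearCombination ℤ b (Finsupp.single x 1 - Finsupp.single y 1) =
            b x - b y := by
          rw [map_sub, Finsupp.linearCombination_single, Finsupp.linearCombination_single,
            one_smul, one_smul]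
        have h5 := (k5 (Finsupp.single x 1 - Finsupp.single y 1) (Sum.inl js)
          (by rw [hlc]; exact hxy)).2
        rw [hlc] at h5
        rw [h5]
        simp only [e3, hc1]
        apply harch TV φ₀ hφ₀
        · exact hge _ ⟨j₀, φ₀⟩
        · exact (k3 _).1 (by rw [hlc]; exact hxy)
      have hbpq : b p = b q := by
        refine arch_eq hβ hD hD' ?_ hcut (harch' q p) (harch' p q)
        rw [k6]
        simp only [e1, e3]
        exact Dom.refl _
      by_contra hcon
      have := (k3 _).2 hcon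
      rw [map_sub, Finsupp.linearCombination_single, Finsupp.linearCombination_single,
        one_smul, one_smul, hbpq, sub_self] at this
      exact lt_irrefl _ this
    -- exponents
    let ex : TV → ℤ := fun x => if x = p ∨ x = q then 1 else 0
    have step3 : (T (Finsupp.single p 1 - Finsupp.single q 1)).ev (fun x => c ^ ex x) = 1 := by
      rw [← step2]
      apply Tm.ev_congr
      intro x hx
      have hxj : x ≠ Sum.inl js := by
        rintro rfl
        exact hjs _ hsuppS hx
      simp only [ex, φ₀]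
      by_cases hx1 : x = p ∨ x = q
      · rw [if_pos hx1, if_pos, zpow_one]
        tauto
      · rw [if_neg hx1, if_neg, zpow_zero]
        tauto
    have step4 := transfer hc (h1 p) ex _ step3
    rw [← step4]
    apply Tm.ev_congr
    intro x hx
    simp only [ex]
    by_cases hx1 : x = p ∨ x = q
    · rw [if_pos hx1, zpow_one]
      rcases hx1 with rfl | rfl
      · rfl
      · exact hφ.symm
    · rw [if_neg hx1, zpow_zero]
      apply h2
      intro k hk hkx
      obtain ⟨a₂, ha₂, hk2⟩ := hsS k hk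
      rw [hkx] at hk2
      subst hk2
      refine hfr _ (fun y hy => Or.inr (hsuppS y hy)) a₂ ha₂ ?_ hx
      intro h
      exact hx1 (hsupp _ h)

end Comb

end Pool.Agent.H815
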