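import Pool.Agent.H815.CL13

set_option autoImplicit false
set_option linter.unusedSectionVars false
set_option linter.unusedVariables false

namespace Pool.Agent.H815

/-- Index set of the family of totally ordered groups. -/
abbrev JJ : Type := Option {l : ℝ // 1 ≤ l}

/-- The family: `M^+` and the `H_lam`, `lam ≥ 1`. -/
def Hf : JJ → Type
  | none => SD MI
  | some lam => SD (HR lam.1 (lt_of_lt_of_le one_pos lam.2))

noncomputable instance : ∀ j, Group (Hf j)
  | none => inferInstanceAs (Group (SD MI))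
  | some lam => inferInstanceAs (Group (SD (HR lam.1 (lt_of_lt_of_le one_pos lam.2))))

noncomputable instance : ∀ j, LinearOrder (Hf j)
  | none => inferInstanceAs (LinearOrder (SD MI))
  | some lam => inferInstanceAs (LinearOrder (SD (HR lam.1 (lt_of_lt_of_le one_pos lam.2))))

instance : ∀ j, MulLeftMono (Hf j)
  | none => inferInstanceAs (MulLeftMono (SD MI))
  | some lam => inferInstanceAs (MulLeftMono (SD (HR lam.1 (lt_of_lt_of_le one_pos lam.2))))

instance : ∀ j, MulRightMono (Hf j)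
  | none => inferInstanceAs (MulRightMono (SD MI))
  | some lam => inferInstanceAs (MulRightMono (SD (HR lam.1 (lt_of_lt_of_le one_pos lam.2))))

lemma arch_H1 (I : Type) (φ : I → SD H1) (h : ∀ i, φ i = 1 ∨ φ i = ⟨1, 0⟩) (τ : Tm I)
    (h1 : 1 ≤ τ.ev φ) (h2 : τ.ev φ ≠ 1) : Dom (⟨1, 0⟩ : SD H1) (τ.ev φ) := by
  refine (dom_H1 ?_ h1 h2).2
  rw [Tm.ev_mono _ SD.quo_monotone]
  have : (fun i => SD.quo H1 (φ i)) = fun _ => 1 := by
    funext i
    rcases h i with h | h
    · rw [h, map_one]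
    · rw [h, SD.quo_apply]; rfl
  rw [this, Tm.ev_one]

/-- The main theorem. -/
theorem main_result :
    ∃ (G : Type) (_ : Group G) (_ : Lattice G) (_ : MulLeftMono G) (_ : MulRightMono G),
      (∀ a b : G, 1 ≤ a → 1 ≤ b → a * b ≤ b ^ 2 * a ^ 2) ∧
      ¬ ∃ (A : Type) (_ : CommGroup A) (_ : Lattice A) (_ : MulLeftMono A),
        Nonempty
          ({H : Subgroup G //
              (∀ x ∈ H, ∀ y ∈ H, x ⊔ y ∈ H ∧ x ⊓ y ∈ H) ∧
              ∀ x ∈ H, ∀ y ∈ H, ∀ z : G, x ≤ z → z ≤ y → z ∈ H} ≃o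
           {K : Subgroup A //
              (∀ x ∈ K, ∀ y ∈ K, x ⊔ y ∈ K ∧ x ⊓ y ∈ K) ∧
              ∀ x ∈ K, ∀ y ∈ K, ∀ z : A, x ≤ z → z ≤ y → z ∈ K}) := by
  refine ⟨Fr Hf TV, inferInstance, inferInstance, inferInstance, inferInstance,
    fun a b ha hb => Fr_normal_valued Hf TV a b ha hb, ?_⟩
  rintro ⟨A, iA, iL, iM, ⟨e⟩⟩
  have : MulRightMono A := mulRightMono_of_mulLeftMono A
  obtain ⟨T, hge, hcore⟩ := core (H := Hf) (I := TV) (A := A) e
  obtain ⟨W, hW⟩ := exists_good (H := Hf) (some ⟨1, le_rfl⟩) (⟨1, 0⟩ : SD H1)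
    (SD.one_lt.2 (Or.inr ⟨rfl, one_pos⟩)) (fun I φ h τ h1 h2 => arch_H1 I φ h τ h1 h2) T hge hcore
  exact no_good (fun lam h h1 => hW (some ⟨lam, h1⟩)) (hW none)

end Pool.Agent.H815
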