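import Pool.Agent.H815.CL1

set_option autoImplicit false
set_option linter.unusedSectionVars false
set_option linter.unusedVariables false

namespace Pool.Agent.H815

open Filter

namespace SD

variable {R R' : Type} [AddCommGroup R] [LinearOrder R] [IsOrderedAddMonoid R] {α : ZAct R}
  [AddCommGroup R'] [LinearOrder R'] [IsOrderedAddMonoid R'] {β : ZAct R'}

/-- Homomorphisms `(r, n) ↦ (f r, d n)`. -/
def map (f : R →+ R') (d : ℤ) (h : ∀ n r, f (α.a n r) = β.a (d * n) (f r)) : SD α →* SD β where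
  toFun x := ⟨f x.r, d * x.n⟩
  map_one' := by ext <;> simp
  map_mul' x y := by
    ext
    · simp [h]
    · simp [mul_add]

lemma map_apply (f : R →+ R') (d : ℤ) (h : ∀ n r, f (α.a n r) = β.a (d * n) (f r)) (x : SD α) :
    map f d h x = ⟨f x.r, d * x.n⟩ := rfl

lemma map_monotone (f : R →+ R') (d : ℤ) (h : ∀ n r, f (α.a n r) = β.a (d * n) (f r))
    (hd : 0 < d) (hf : Monotone f) : Monotone (map f d h) := by
  intro x y hxy
  rw [le_iff] at hxy
  rw [map_apply, map_apply, le_iff]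
  rcases hxy with h1 | ⟨h1, h2⟩
  · left; exact mul_lt_mul_of_pos_left h1 hd
  · right; exact ⟨by simp only [h1], hf h2⟩

lemma map_injective (f : R →+ R') (d : ℤ) (h : ∀ n r, f (α.a n r) = β.a (d * n) (f r))
    (hd : 0 < d) (hf : Function.Injective f) : Function.Injective (map f d h) := by
  intro x y hxy
  rw [map_apply, map_apply, SD.mk.injEq] at hxy
  ext
  · exact hf hxy.1
  · have := hxy.2
    exact mul_left_cancel₀ hd.ne' this

/-- The quotient map, as an endomorphism. -/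
def quo (α : ZAct R) : SD α →* SD α := map 0 1 (by intro n r; simp)

lemma quo_apply (x : SD α) : quo α x = ⟨0, x.n⟩ := by
  rw [quo, map_apply]
  simp

lemma quo_monotone : Monotone (quo α) := map_monotone _ _ _ one_pos (fun _ _ _ => le_rfl)

end SD

/-- Multiplication by `lam` on `ℝ`. -/
noncomputable def HR (lam : ℝ) (h : 0 < lam) : ZAct ℝ where
  a n r := lam ^ n * r
  zero r := by simp
  comp m n r := by rw [zpow_add₀ h.ne']; ring
  add n r s := by ring
  lt n r s hrs := by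
    have := zpow_pos h n
    exact mul_lt_mul_of_pos_left hrs this

lemma HR_a (lam : ℝ) (h : 0 < lam) (n : ℤ) (r : ℝ) : (HR lam h).a n r = lam ^ n * r := rfl

/-- Scaling. -/
noncomputable def scale (lam : ℝ) (h : 0 < lam) (c : ℝ) : SD (HR lam h) →* SD (HR lam h) :=
  SD.map (AddMonoidHom.mulLeft c) 1 (by intro n r; simp [HR_a]; ring)

lemma scale_apply (lam : ℝ) (h : 0 < lam) (c : ℝ) (x : SD (HR lam h)) :
    scale lam h c x = ⟨c * x.r, x.n⟩ := by
  rw [scale, SD.map_apply]; simp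

lemma scale_monotone (lam : ℝ) (h : 0 < lam) {c : ℝ} (hc : 0 < c) :
    Monotone (scale lam h c) :=
  SD.map_monotone _ _ _ one_pos (fun _ _ hxy => mul_le_mul_of_nonneg_left hxy hc.le)

lemma scale_injective (lam : ℝ) (h : 0 < lam) {c : ℝ} (hc : 0 < c) :
    Function.Injective (scale lam h c) :=
  SD.map_injective _ _ _ one_pos (fun _ _ hxy => mul_left_cancel₀ hc.ne' hxy)

/-- Doubling `H_{lam²} → H_lam`. -/
noncomputable def dbl (lam : ℝ) (h : 0 < lam) (h2 : 0 < lam ^ 2) :
    SD (HR (lam ^ 2) h2) →* SD (HR lam h) :=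
  SD.map (AddMonoidHom.id ℝ) 2 (by
    intro n r
    simp only [AddMonoidHom.id_apply, HR_a]
    rw [zpow_mul]
    norm_cast)

lemma dbl_apply (lam : ℝ) (h : 0 < lam) (h2 : 0 < lam ^ 2) (x : SD (HR (lam ^ 2) h2)) :
    dbl lam h h2 x = ⟨x.r, 2 * x.n⟩ := by
  rw [dbl, SD.map_apply]; simp

lemma dbl_monotone (lam : ℝ) (h : 0 < lam) (h2 : 0 < lam ^ 2) : Monotone (dbl lam h h2) :=
  SD.map_monotone _ _ _ two_pos monotone_id

lemma dbl_injective (lam : ℝ) (h : 0 < lam) (h2 : 0 < lam ^ 2) :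
    Function.Injective (dbl lam h h2) :=
  SD.map_injective _ _ _ two_pos Function.injective_id

/-- The group `ℝ × ℤ`, lexicographic. -/
noncomputable abbrev H1 : ZAct ℝ := HR 1 one_pos

lemma H1_a (n : ℤ) (r : ℝ) : H1.a n r = r := by simp [HR_a]

/-- The automorphism `(r, n) ↦ (r + n, n)`. -/
noncomputable def tau : SD H1 →* SD H1 where
  toFun x := ⟨x.r + x.n, x.n⟩
  map_one' := by ext <;> simp
  map_mul' x y := by
    ext
    · simp [H1_a]; ring
    · simp

lemma tau_apply (x : SD H1) : tau x = ⟨x.r + x.n, x.n⟩ := rfl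

lemma tau_monotone : Monotone tau := by
  intro x y hxy
  rw [SD.le_iff] at hxy
  rw [tau_apply, tau_apply, SD.le_iff]
  rcases hxy with h1 | ⟨h1, h2⟩
  · left; exact h1
  · right; exact ⟨h1, by simp only [h1]; linarith⟩

lemma tau_injective : Function.Injective tau := by
  intro x y hxy
  rw [tau_apply, tau_apply, SD.mk.injEq] at hxy
  obtain ⟨h1, h2⟩ := hxy
  ext
  · rw [h2] at h1; linarith
  · exact h2

/-- `(r, n) ↦ r + s n`. -/
noncomputable def evs (s : ℝ) : SD H1 →* SD H1 where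
  toFun x := ⟨x.r + s * x.n, 0⟩
  map_one' := by ext <;> simp
  map_mul' x y := by
    ext
    · simp [H1_a]; ring
    · simp

lemma evs_apply (s : ℝ) (x : SD H1) : evs s x = ⟨x.r + s * x.n, 0⟩ := rfl

lemma evs_le {x y : SD H1} (h : x ≤ y) : ∀ᶠ s in atTop, evs s x ≤ evs s y := by
  rw [SD.le_iff] at h
  rcases h with h | ⟨h, h'⟩
  · filter_upwards [eventually_ge_atTop (max 0 (x.r - y.r))] with s hs
    rw [evs_apply, evs_apply, SD.le_iff]
    right
    refine ⟨rfl, ?_⟩
    have h1 : (x.n : ℝ) + 1 ≤ y.n := by exact_mod_cast h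
    have h2 : 0 ≤ s := le_trans (le_max_left _ _) hs
    have h3 : x.r - y.r ≤ s := le_trans (le_max_right _ _) hs
    simp only
    nlinarith
  · refine Eventually.of_forall fun s => ?_
    rw [evs_apply, evs_apply, SD.le_iff]
    right
    refine ⟨rfl, ?_⟩
    simp only [h]
    linarith

lemma evs_sup (x y : SD H1) : ∀ᶠ s in atTop, evs s (x ⊔ y) = evs s x ⊔ evs s y := by
  rcases le_total x y with h | h
  · filter_upwards [evs_le h] with s hs
    rw [sup_of_le_right h, sup_of_le_right hs]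
  · filter_upwards [evs_le h] with s hs
    rw [sup_of_le_left h, sup_of_le_left hs]

/-- `H_1` is a limit of `ℝ`. -/
lemma ev_evs {I : Type} (φ : I → SD H1) (τ : Tm I) :
    ∀ᶠ s in atTop, τ.ev (fun i => evs s (φ i)) = evs s (τ.ev φ) := by
  induction τ with
  | var i =>
    filter_upwards [evs_sup (φ i) 1] with s hs
    simp only [Tm.ev, hs, map_one]
  | one => exact Eventually.of_forall fun s => by simp [Tm.ev]
  | mul a b iha ihb =>
    filter_upwards [iha, ihb] with s ha hb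
    simp only [Tm.ev, ha, hb, map_mul]
  | inv a iha =>
    filter_upwards [iha] with s ha
    simp only [Tm.ev, ha, map_inv]
  | sup a b iha ihb =>
    filter_upwards [iha, ihb, evs_sup (a.ev φ) (b.ev φ)] with s ha hb hs
    simp only [Tm.ev, ha, hb, hs]

/-- Continuity in `lam`. -/
lemma ev_cont {I : Type} (φ : I → ℝ × ℤ) (τ : Tm I) :
    ∃ (D : ℝ → ℝ) (n : ℤ), ContinuousOn D (Set.Ioi 0) ∧ ∀ (lam : ℝ) (h : 0 < lam),
      τ.ev (fun i => (⟨(φ i).1, (φ i).2⟩ : SD (HR lam h))) = ⟨D lam, n⟩ := by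
  have sup_mk : ∀ (lam : ℝ) (h : 0 < lam) (r s : ℝ) (n m : ℤ),
      (⟨r, n⟩ : SD (HR lam h)) ⊔ ⟨s, m⟩ =
        if n < m then ⟨s, m⟩ else if m < n then ⟨r, n⟩ else ⟨max r s, n⟩ := by
    intro lam h r s n m
    split_ifs with h1 h2
    · apply sup_of_le_right
      rw [SD.le_iff]; left; exact h1
    · apply sup_of_le_left
      rw [SD.le_iff]; left; exact h2
    · have h3 : n = m := by omega
      subst h3
      rcases le_total r s with h4 | h4
      · rw [max_eq_right h4]
        apply sup_of_le_right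
        rw [SD.le_iff]; right; exact ⟨rfl, h4⟩
      · rw [max_eq_left h4]
        apply sup_of_le_left
        rw [SD.le_iff]; right; exact ⟨rfl, h4⟩
  have key : ∀ (D E : ℝ → ℝ) (n m : ℤ), ContinuousOn D (Set.Ioi 0) → ContinuousOn E (Set.Ioi 0) →
      ∃ (F : ℝ → ℝ) (k : ℤ), ContinuousOn F (Set.Ioi 0) ∧ ∀ (lam : ℝ) (h : 0 < lam),
        (⟨D lam, n⟩ : SD (HR lam h)) ⊔ ⟨E lam, m⟩ = ⟨F lam, k⟩ := by
    intro D E n m hD hE
    by_cases h1 : n < m
    · exact ⟨E, m, hE, fun lam h => by rw [sup_mk, if_pos h1]⟩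
    · by_cases h2 : m < n
      · exact ⟨D, n, hD, fun lam h => by rw [sup_mk, if_neg h1, if_pos h2]⟩
      · exact ⟨fun l => max (D l) (E l), n, hD.sup hE,
          fun lam h => by rw [sup_mk, if_neg h1, if_neg h2]⟩
  induction τ with
  | var i =>
    obtain ⟨F, k, hF, h⟩ := key (fun _ => (φ i).1) (fun _ => 0) (φ i).2 0
      continuousOn_const continuousOn_const
    exact ⟨F, k, hF, fun lam hl => h lam hl⟩
  | one => exact ⟨fun _ => 0, 0, continuousOn_const, fun lam h => rfl⟩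
  | mul a b iha ihb =>
    obtain ⟨D, n, hD, h1⟩ := iha
    obtain ⟨E, m, hE, h2⟩ := ihb
    refine ⟨fun l => D l + l ^ n * E l, n + m, ?_, ?_⟩
    · refine hD.add (ContinuousOn.mul ?_ hE)
      exact continuousOn_id.zpow₀ n (fun x hx => Or.inl (ne_of_gt hx))
    · intro lam h
      simp only [Tm.ev, h1 lam h, h2 lam h]
      rfl
  | inv a iha =>
    obtain ⟨D, n, hD, h1⟩ := iha
    refine ⟨fun l => -(l ^ (-n) * D l), -n, ?_, ?_⟩
    · refine (ContinuousOn.mul ?_ hD).neg
      exact continuousOn_id.zpow₀ (-n) (fun x hx => Or.inl (ne_of_gt hx))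
    · intro lam h
      simp only [Tm.ev, h1 lam h]
      rfl
  | sup a b iha ihb =>
    obtain ⟨D, n, hD, h1⟩ := iha
    obtain ⟨E, m, hE, h2⟩ := ihb
    obtain ⟨F, k, hF, h⟩ := key D E n m hD hE
    refine ⟨F, k, hF, ?_⟩
    intro lam hl
    simp only [Tm.ev, h1 lam hl, h2 lam hl, h lam hl]

end Pool.Agent.H815
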