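import Pool.Agent.H815.CL2

set_option autoImplicit false
set_option linter.unusedSectionVars false
set_option linter.unusedVariables false

namespace Pool.Agent.H815

open Filter

/-- Integral Laurent polynomials in an infinitely large variable. -/
abbrev RI : Type := Colex (ℤ →₀ ℤ)

/-- Reindexing. -/
noncomputable def rei (f : ℤ → ℤ) : RI →+ RI where
  toFun p := toColex (Finsupp.mapDomain f (ofColex p))
  map_zero' := by
    change toColex (Finsupp.mapDomain f 0) = toColex 0
    rw [Finsupp.mapDomain_zero]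
  map_add' p q := by
    change toColex (Finsupp.mapDomain f (ofColex p + ofColex q)) =
      toColex (Finsupp.mapDomain f (ofColex p) + Finsupp.mapDomain f (ofColex q))
    rw [Finsupp.mapDomain_add]

lemma ofColex_rei (f : ℤ → ℤ) (p : RI) : ofColex (rei f p) = Finsupp.mapDomain f (ofColex p) := rfl

lemma rei_lt {f : ℤ → ℤ} (hf : StrictMono f) {p q : RI} (h : p < q) : rei f p < rei f q := by
  rw [Finsupp.Colex.lt_iff] at h ⊢
  obtain ⟨i, h1, h2⟩ := h
  refine ⟨f i, ?_, ?_⟩
  · intro j hj
    rw [ofColex_rei, ofColex_rei]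
    by_cases hr : j ∈ Set.range f
    · obtain ⟨k, rfl⟩ := hr
      rw [Finsupp.mapDomain_apply hf.injective, Finsupp.mapDomain_apply hf.injective]
      exact h1 k (hf.lt_iff_lt.1 hj)
    · rw [Finsupp.mapDomain_of_notMem_range _ _ hr, Finsupp.mapDomain_of_notMem_range _ _ hr]
  · rw [ofColex_rei, ofColex_rei, Finsupp.mapDomain_apply hf.injective,
      Finsupp.mapDomain_apply hf.injective]
    exact h2

lemma rei_strictMono {f : ℤ → ℤ} (hf : StrictMono f) : StrictMono (rei f) := fun _ _ h => rei_lt hf h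

lemma rei_rei (f g : ℤ → ℤ) (p : RI) : rei f (rei g p) = rei (f ∘ g) p := by
  change toColex (Finsupp.mapDomain f (Finsupp.mapDomain g (ofColex p))) =
    toColex (Finsupp.mapDomain (f ∘ g) (ofColex p))
  rw [Finsupp.mapDomain_comp]

/-- The shift action. -/
noncomputable def MI : ZAct RI where
  a n := rei (fun k => k + n)
  zero r := by
    change toColex (Finsupp.mapDomain (fun k : ℤ => k + 0) (ofColex r)) = r
    have : (fun k : ℤ => k + 0) = id := by funext k; simp
    rw [this, Finsupp.mapDomain_id]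
    rfl
  comp m n r := by
    rw [rei_rei]
    congr 1
    congr 1
    funext k
    simp only [Function.comp]
    ring
  add n r s := map_add _ _ _
  lt n r s h := rei_lt (fun a b hab => by simpa using hab) h

lemma MI_a (n : ℤ) (p : RI) : MI.a n p = rei (fun k => k + n) p := rfl

/-- The monomials. -/
noncomputable def mon (k : ℤ) : RI := toColex (Finsupp.single k 1)

lemma rei_mon (f : ℤ → ℤ) (k : ℤ) : rei f (mon k) = mon (f k) := by
  change toColex (Finsupp.mapDomain f (Finsupp.single k 1)) = toColex (Finsupp.single (f k) 1)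
  rw [Finsupp.mapDomain_single]

/-- The doubling endomorphism. -/
noncomputable def iota : SD MI →* SD MI :=
  SD.map (rei (fun k => 2 * k)) 2 (by
    intro n r
    rw [MI_a, MI_a, rei_rei, rei_rei]
    congr 1
    congr 1
    funext k
    simp only [Function.comp]
    ring)

lemma two_mul_strictMono : StrictMono (fun k : ℤ => 2 * k) := fun a b h => by
  simp only
  omega

lemma iota_apply (x : SD MI) : iota x = ⟨rei (fun k => 2 * k) x.r, 2 * x.n⟩ := rfl

lemma iota_monotone : Monotone iota :=
  SD.map_monotone _ _ _ two_pos (rei_strictMono two_mul_strictMono).monotone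

lemma iota_injective : Function.Injective iota :=
  SD.map_injective _ _ _ two_pos (rei_strictMono two_mul_strictMono).injective

/-- Evaluation at a real number. -/
noncomputable def evl (lam : ℝ) : RI →+ ℝ where
  toFun p := (ofColex p).sum fun k c => (c : ℝ) * lam ^ k
  map_zero' := by
    change Finsupp.sum 0 _ = 0
    exact Finsupp.sum_zero_index
  map_add' p q := by
    change Finsupp.sum (ofColex p + ofColex q) _ = _
    rw [Finsupp.sum_add_index']
    · intro a; simp
    · intro a b c; push_cast; ring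

lemma evl_def (lam : ℝ) (p : RI) : evl lam p = (ofColex p).sum fun k c => (c : ℝ) * lam ^ k := rfl

lemma evl_mon (lam : ℝ) (k : ℤ) : evl lam (mon k) = lam ^ k := by
  change (Finsupp.single k (1 : ℤ)).sum (fun k c => (c : ℝ) * lam ^ k) = _
  rw [Finsupp.sum_single_index] <;> simp

lemma evl_shift (lam : ℝ) (h : 0 < lam) (n : ℤ) (p : RI) :
    evl lam (MI.a n p) = lam ^ n * evl lam p := by
  change (Finsupp.mapDomain (fun k => k + n) (ofColex p)).sum (fun k c => (c : ℝ) * lam ^ k) = _
  rw [Finsupp.sum_mapDomain_index]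
  · rw [evl_def, Finsupp.sum, Finsupp.sum, Finset.mul_sum]
    refine Finset.sum_congr rfl fun k _ => ?_
    rw [zpow_add₀ h.ne']
    ring
  · intro b; simp
  · intro b c d; push_cast; ring

/-- `M^+ → H_lam`. -/
noncomputable def evL (lam : ℝ) (h : 0 < lam) : SD MI →* SD (HR lam h) :=
  SD.map (evl lam) 1 (by intro n r; rw [evl_shift lam h]; simp [HR_a])

lemma evL_apply (lam : ℝ) (h : 0 < lam) (x : SD MI) : evL lam h x = ⟨evl lam x.r, x.n⟩ := by
  rw [evL, SD.map_apply]; simp

/-- Leading index. -/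
lemma exists_lead {p : RI} (hp : 0 < p) :
    ∃ j : ℤ, 1 ≤ (ofColex p) j ∧ ∀ k, j < k → (ofColex p) k = 0 := by
  rw [Finsupp.Colex.lt_iff] at hp
  obtain ⟨i, h1, h2⟩ := hp
  refine ⟨i, ?_, fun k hk => (h1 k hk).symm⟩
  have : (0 : ℤ) < (ofColex p) i := h2
  omega

lemma evl_pos {p : RI} (hp : 0 < p) : ∀ᶠ lam in atTop, 0 < evl lam p := by
  obtain ⟨j, h1, h2⟩ := exists_lead hp
  set f := ofColex p with hf
  set C : ℝ := ∑ k ∈ f.support.erase j, |(f k : ℝ)| with hC
  have hC0 : 0 ≤ C := Finset.sum_nonneg fun _ _ => abs_nonneg _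
  filter_upwards [eventually_ge_atTop (C + 1)] with lam hl
  have hl1 : 1 ≤ lam := by linarith
  have hl0 : 0 < lam := by linarith
  have hj : j ∈ f.support := by
    rw [Finsupp.mem_support_iff]; omega
  have e1 : evl lam p = (f j : ℝ) * lam ^ j + ∑ k ∈ f.support.erase j, (f k : ℝ) * lam ^ k := by
    rw [evl_def, Finsupp.sum, ← hf, ← Finset.add_sum_erase _ _ hj]
  have e2 : |∑ k ∈ f.support.erase j, (f k : ℝ) * lam ^ k| ≤ C * lam ^ (j - 1) := by
    refine (Finset.abs_sum_le_sum_abs _ _).trans ?_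
    rw [hC, Finset.sum_mul]
    refine Finset.sum_le_sum fun k hk => ?_
    rw [abs_mul]
    refine mul_le_mul_of_nonneg_left ?_ (abs_nonneg _)
    rw [abs_of_pos (zpow_pos hl0 k)]
    apply zpow_le_zpow_right₀ hl1
    rw [Finset.mem_erase, Finsupp.mem_support_iff] at hk
    have : ¬ j < k := fun hjk => hk.2 (h2 k hjk)
    have := hk.1
    omega
  have e3 : lam ^ j = lam * lam ^ (j - 1) := by
    rw [zpow_sub_one₀ hl0.ne']
    field_simp
  have e4 := zpow_pos hl0 (j - 1)
  have e5 : (1 : ℝ) ≤ f j := by exact_mod_cast h1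
  rw [abs_le] at e2
  rw [e1, e3]
  have e6 : lam * lam ^ (j - 1) ≤ (f j : ℝ) * (lam * lam ^ (j - 1)) :=
    le_mul_of_one_le_left (by positivity) e5
  nlinarith [e2.1]

lemma evl_le {p q : RI} (h : p ≤ q) : ∀ᶠ lam in atTop, evl lam p ≤ evl lam q := by
  rcases h.eq_or_lt with h | h
  · exact Eventually.of_forall fun lam => by rw [h]
  · filter_upwards [evl_pos (sub_pos.2 h)] with lam hl
    rw [map_sub] at hl
    linarith

/-- `M^+` is the limit of `H_lam`. -/
lemma ev_evL {I : Type} (φ : I → SD MI) (τ : Tm I) :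
    ∀ᶠ lam in atTop, ∀ h : 0 < lam,
      τ.ev (fun i => evL lam h (φ i)) = evL lam h (τ.ev φ) := by
  have hle : ∀ {x y : SD MI}, x ≤ y → ∀ᶠ lam in atTop, ∀ h : 0 < lam,
      evL lam h x ≤ evL lam h y := by
    intro x y hxy
    rw [SD.le_iff] at hxy
    rcases hxy with h1 | ⟨h1, h2⟩
    · refine Eventually.of_forall fun lam h => ?_
      rw [evL_apply, evL_apply, SD.le_iff]
      left; exact h1
    · filter_upwards [evl_le h2] with lam hl h
      rw [evL_apply, evL_apply, SD.le_iff]
      right; exact ⟨h1, hl⟩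
  have hsup : ∀ (x y : SD MI), ∀ᶠ lam in atTop, ∀ h : 0 < lam,
      evL lam h (x ⊔ y) = evL lam h x ⊔ evL lam h y := by
    intro x y
    rcases le_total x y with h | h
    · filter_upwards [hle h] with lam hl h'
      rw [sup_of_le_right h, sup_of_le_right (hl h')]
    · filter_upwards [hle h] with lam hl h'
      rw [sup_of_le_left h, sup_of_le_left (hl h')]
  induction τ with
  | var i =>
    filter_upwards [hsup (φ i) 1] with lam hs h
    simp only [Tm.ev, hs h, map_one]
  | one => exact Eventually.of_forall fun s h => by simp [Tm.ev]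
  | mul a b iha ihb =>
    filter_upwards [iha, ihb] with lam ha hb h
    simp only [Tm.ev, ha h, hb h, map_mul]
  | inv a iha =>
    filter_upwards [iha] with lam ha h
    simp only [Tm.ev, ha h, map_inv]
  | sup a b iha ihb =>
    filter_upwards [iha, ihb, hsup (a.ev φ) (b.ev φ)] with lam ha hb hs h
    simp only [Tm.ev, ha h, hb h, hs h]

/-- Archimedean classes in `RI`. -/
lemma exists_class {p : RI} (hp : 0 < p) :
    ∃ j : ℤ, mon j ≤ (2 : ℕ) • p ∧ ∃ k : ℕ, p ≤ k • mon j := by
  obtain ⟨j, h1, h2⟩ := exists_lead hp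
  refine ⟨j, ?_, ((ofColex p) j + 1).toNat, ?_⟩
  · apply le_of_lt
    rw [Finsupp.Colex.lt_iff]
    refine ⟨j, ?_, ?_⟩
    · intro k hk
      change (Finsupp.single j (1 : ℤ)) k = ((2 : ℕ) • ofColex p) k
      rw [Finsupp.single_eq_of_ne (by omega), Finsupp.smul_apply, h2 k hk, smul_zero]
    · change (Finsupp.single j (1 : ℤ)) j < ((2 : ℕ) • ofColex p) j
      rw [Finsupp.single_eq_same, Finsupp.smul_apply, nsmul_eq_mul]
      push_cast
      omega
  · apply le_of_lt
    rw [Finsupp.Colex.lt_iff]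
    refine ⟨j, ?_, ?_⟩
    · intro k hk
      change (ofColex p) k = (((ofColex p) j + 1).toNat • Finsupp.single j (1 : ℤ)) k
      rw [Finsupp.smul_apply, Finsupp.single_eq_of_ne (by omega), h2 k hk, smul_zero]
    · change (ofColex p) j < (((ofColex p) j + 1).toNat • Finsupp.single j (1 : ℤ)) j
      rw [Finsupp.smul_apply, Finsupp.single_eq_same, nsmul_eq_mul, Int.toNat_of_nonneg (by omega)]
      omega

lemma mon_pos (j : ℤ) : 0 < mon j := by
  rw [Finsupp.Colex.lt_iff]
  refine ⟨j, ?_, ?_⟩
  · intro k hk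
    change (0 : ℤ →₀ ℤ) k = (Finsupp.single j (1 : ℤ)) k
    rw [Finsupp.single_eq_of_ne (by omega)]; rfl
  · change (0 : ℤ →₀ ℤ) j < (Finsupp.single j (1 : ℤ)) j
    rw [Finsupp.single_eq_same]; exact one_pos

lemma mon_class {i j : ℤ} {k : ℕ} (h : mon i ≤ k • mon j) : i ≤ j := by
  by_contra hc
  push Not at hc
  refine absurd h (not_le.2 ?_)
  rw [Finsupp.Colex.lt_iff]
  refine ⟨i, ?_, ?_⟩
  · intro l hl
    change (k • Finsupp.single j (1 : ℤ)) l = (Finsupp.single i (1 : ℤ)) l
    rw [Finsupp.smul_apply, Finsupp.single_eq_of_ne (by omega), Finsupp.single_eq_of_ne (by omega),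
      smul_zero]
  · change (k • Finsupp.single j (1 : ℤ)) i < (Finsupp.single i (1 : ℤ)) i
    rw [Finsupp.smul_apply, Finsupp.single_eq_of_ne (by omega), Finsupp.single_eq_same, smul_zero]
    exact one_pos

end Pool.Agent.H815
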