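import Pool.Agent.H815.CL3

set_option autoImplicit false
set_option linter.unusedSectionVars false
set_option linter.unusedVariables false

namespace Pool.Agent.H815

open Filter

/-- `x ≤ y ^ k` for some `k`. -/
def Dom {H : Type} [Group H] [LE H] (x y : H) : Prop := ∃ k : ℕ, x ≤ y ^ k

/-- Additive version. -/
def DomA {B : Type} [AddCommGroup B] [LE B] (x y : B) : Prop := ∃ k : ℕ, x ≤ k • y

lemma Dom.trans {H : Type} [Group H] [Preorder H] [MulLeftMono H] [MulRightMono H] {x y z : H}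
    (h : Dom x y) (h' : Dom y z) : Dom x z := by
  obtain ⟨k, hk⟩ := h
  obtain ⟨l, hl⟩ := h'
  refine ⟨l * k, hk.trans ?_⟩
  rw [pow_mul]
  exact pow_le_pow_left' hl k

lemma Dom.refl {H : Type} [Group H] [Preorder H] (x : H) : Dom x x := ⟨1, by simp⟩

/-- Push-forward of a form. -/
def push {m m' : ℕ} (σ : Fin m' → Fin m) (t : Fin m' → ℤ) : Fin m → ℤ :=
  fun i => ∑ k, if σ k = i then t k else 0

lemma sum_push {m m' : ℕ} {B : Type} [AddCommGroup B] (σ : Fin m' → Fin m) (t : Fin m' → ℤ)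
    (b : Fin m → B) : ∑ i, push σ t i • b i = ∑ k, t k • b (σ k) := by
  simp only [push, Finset.sum_smul]
  rw [Finset.sum_comm]
  refine Finset.sum_congr rfl fun k _ => ?_
  rw [Finset.sum_eq_single (σ k)]
  · simp
  · intro i _ hi
    rw [if_neg (Ne.symm hi), zero_smul]
  · simp

/-- The system of terms attached to an isomorphism `C(G) ≅ C(A)`. -/
structure Good (W : ∀ m : ℕ, (Fin m → ℤ) → Tm (Fin m)) (H : Type) [Group H] [LinearOrder H] :
    Prop where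
  ge : ∀ m ≤ 6, ∀ g : Fin m → H, (∀ i, 1 ≤ g i) → ∀ t, 1 ≤ (W m t).ev g
  main : ∀ m ≤ 6, ∀ g : Fin m → H, (∀ i, 1 ≤ g i) →
    ∃ (B : Type) (_ : AddCommGroup B) (_ : LinearOrder B) (_ : IsOrderedAddMonoid B)
      (b : Fin m → B), (∀ i, 0 ≤ b i) ∧
      (∀ t : Fin m → ℤ, 0 < ∑ i, t i • b i ↔ (W m t).ev g ≠ 1) ∧
      (∀ t t' : Fin m → ℤ, 0 < ∑ i, t i • b i → 0 < ∑ i, t' i • b i →
        (DomA (∑ i, t i • b i) (∑ i, t' i • b i) ↔ Dom ((W m t).ev g) ((W m t').ev g)))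
  sing : ∀ m ≤ 6, ∀ g : Fin m → H, (∀ i, 1 ≤ g i) → ∀ i,
    Dom ((W m (Pi.single i 1)).ev g) (g i) ∧ Dom (g i) ((W m (Pi.single i 1)).ev g)
  rei : ∀ m ≤ 6, ∀ m' ≤ 6, ∀ (σ : Fin m' → Fin m) (g : Fin m → H), (∀ i, 1 ≤ g i) →
    ∀ t : Fin m' → ℤ,
    Dom ((W m' t).ev (fun k => g (σ k))) ((W m (push σ t)).ev g) ∧
    Dom ((W m (push σ t)).ev g) ((W m' t).ev (fun k => g (σ k)))

namespace Good

variable {W : ∀ m : ℕ, (Fin m → ℤ) → Tm (Fin m)} {H : Type} [Group H] [LinearOrder H]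
  [MulLeftMono H] [MulRightMono H]

lemma dom_one {x : H} (h : Dom x 1) (h1 : 1 ≤ x) : x = 1 := by
  obtain ⟨k, hk⟩ := h
  rw [one_pow] at hk
  exact le_antisymm hk h1

lemma tup (hG : Good W H) {m : ℕ} (hm : m ≤ 6) (g : Fin m → H) (hg : ∀ i, 1 ≤ g i) :
    ∃ (B : Type) (_ : AddCommGroup B) (_ : LinearOrder B) (_ : IsOrderedAddMonoid B)
      (b : Fin m → B), (∀ i, 0 ≤ b i) ∧ (∀ i, 0 < b i ↔ g i ≠ 1) ∧
      (∀ m' ≤ 6, ∀ (σ : Fin m' → Fin m) (t : Fin m' → ℤ),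
        0 < ∑ k, t k • b (σ k) ↔ (W m' t).ev (fun k => g (σ k)) ≠ 1) ∧
      (∀ m' ≤ 6, ∀ (σ : Fin m' → Fin m) (t : Fin m' → ℤ) (i : Fin m),
        0 < ∑ k, t k • b (σ k) → g i ≠ 1 →
        (DomA (∑ k, t k • b (σ k)) (b i) ↔ Dom ((W m' t).ev (fun k => g (σ k))) (g i)) ∧
        (DomA (b i) (∑ k, t k • b (σ k)) ↔ Dom (g i) ((W m' t).ev (fun k => g (σ k))))) ∧
      (∀ i j, g i ≠ 1 → g j ≠ 1 → (DomA (b i) (b j) ↔ Dom (g i) (g j))) := by
  obtain ⟨B, i1, i2, i3, b, hb, hP, hC⟩ := hG.main m hm g hg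
  have hsingle : ∀ i, ∑ k, (Pi.single i (1 : ℤ) : Fin m → ℤ) k • b k = b i := by
    intro i
    rw [Finset.sum_eq_single i]
    · simp
    · intro j _ hj
      simp [Pi.single_eq_of_ne hj]
    · simp
  have hne : ∀ i, (W m (Pi.single i 1)).ev g ≠ 1 ↔ g i ≠ 1 := by
    intro i
    obtain ⟨h1, h2⟩ := hG.sing m hm g hg i
    refine not_congr ⟨fun h => ?_, fun h => ?_⟩
    · rw [h] at h2
      exact dom_one h2 (hg i)
    · rw [h] at h1
      exact dom_one h1 (hG.ge m hm g hg _)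
  have hpos : ∀ i, 0 < b i ↔ g i ≠ 1 := by
    intro i
    rw [← hne i, ← hP, hsingle]
  refine ⟨B, i1, i2, i3, b, hb, hpos, ?_, ?_, ?_⟩
  · intro m' hm' σ t
    rw [← sum_push σ t b, hP]
    obtain ⟨h1, h2⟩ := hG.rei m hm m' hm' σ g hg t
    refine not_congr ⟨fun h => ?_, fun h => ?_⟩
    · rw [h] at h1
      exact dom_one h1 (hG.ge m' hm' _ (fun k => hg _) _)
    · rw [h] at h2
      exact dom_one h2 (hG.ge m hm g hg _)
  · intro m' hm' σ t i ht hi
    obtain ⟨h1, h2⟩ := hG.rei m hm m' hm' σ g hg t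
    obtain ⟨h3, h4⟩ := hG.sing m hm g hg i
    rw [← sum_push σ t b] at ht ⊢
    have hi' : 0 < ∑ k, (Pi.single i (1 : ℤ) : Fin m → ℤ) k • b k := by
      rw [hsingle]; exact (hpos i).2 hi
    have e1 := hC _ _ ht hi'
    have e2 := hC _ _ hi' ht
    rw [hsingle] at e1 e2
    constructor
    · rw [e1]
      exact ⟨fun h => (h1.trans h).trans h3, fun h => (h2.trans h).trans h4⟩
    · rw [e2]
      exact ⟨fun h => (h4.trans h).trans h2, fun h => (h3.trans h).trans h1⟩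
  · intro i j hi hj
    obtain ⟨h1, h2⟩ := hG.sing m hm g hg i
    obtain ⟨h3, h4⟩ := hG.sing m hm g hg j
    have hi' : 0 < ∑ k, (Pi.single i (1 : ℤ) : Fin m → ℤ) k • b k := by
      rw [hsingle]; exact (hpos i).2 hi
    have hj' : 0 < ∑ k, (Pi.single j (1 : ℤ) : Fin m → ℤ) k • b k := by
      rw [hsingle]; exact (hpos j).2 hj
    have e1 := hC _ _ hi' hj'
    rw [hsingle, hsingle] at e1
    rw [e1]
    exact ⟨fun h => (h2.trans h).trans h3, fun h => (h1.trans h).trans h4⟩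

end Good

/-! ### Archimedean comparisons -/

section Arch

variable {B : Type} [AddCommGroup B] [LinearOrder B] [IsOrderedAddMonoid B]

lemma exists_least {D β : B} (hβ : 0 < β) (hD : 0 < D) (h : DomA D β) (K : ℕ) (hK : 0 < K) :
    ∃ m : ℕ, K • D ≤ m • β ∧ m • β < K • D + β := by
  obtain ⟨k, hk⟩ := h
  have hex : ∃ m : ℕ, K • D ≤ m • β := ⟨K * k, by
    rw [mul_smul]
    exact nsmul_le_nsmul_right hk K⟩
  classical
  refine ⟨Nat.find hex, Nat.find_spec hex, ?_⟩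
  have h0 : Nat.find hex ≠ 0 := by
    intro h0
    have := Nat.find_spec hex
    rw [h0, zero_smul] at this
    have h2 : 0 < K • D := nsmul_pos hD hK.ne'
    exact absurd this (not_le.2 h2)
  obtain ⟨l, hl⟩ := Nat.exists_eq_succ_of_ne_zero h0
  have h1 := Nat.find_min hex (m := l) (by omega)
  rw [not_le] at h1
  rw [hl, Nat.succ_eq_add_one, add_smul, one_smul]
  exact add_lt_add_left h1 β

lemma arch_eq {D D' β : B} (hβ : 0 < β) (hD : 0 < D) (hD' : 0 < D') (h : DomA D β)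
    (hcut : ∀ n m : ℕ, m • β < n • D ↔ m • β < n • D')
    (h1 : 0 < D' - D → DomA β (D' - D)) (h2 : 0 < D - D' → DomA β (D - D')) : D = D' := by
  have key : ∀ x y : B, 0 < x → 0 < y → DomA x β → 0 < y - x → DomA β (y - x) →
      ∃ n m : ℕ, m • β < n • y ∧ ¬ m • β < n • x := by
    intro x y hx hy hxβ hxy hβ'
    obtain ⟨k, hk⟩ := hβ'
    obtain ⟨m, hm1, hm2⟩ := exists_least hβ hx hxβ (k + 1) (Nat.succ_pos k)
    refine ⟨k + 1, m, ?_, not_lt.2 hm1⟩
    refine hm2.trans ?_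
    have e : (k + 1) • y = (k + 1) • x + (k • (y - x) + (y - x)) := by
      rw [← succ_nsmul, ← smul_add]; congr 1; abel
    rw [e]
    refine add_lt_add_right ?_ _
    exact lt_of_le_of_lt hk (lt_add_of_pos_right _ hxy)
  rcases lt_trichotomy D D' with hlt | heq | hlt
  · obtain ⟨n, m, h3, h4⟩ := key D D' hD hD' h (sub_pos.2 hlt) (h1 (sub_pos.2 hlt))
    exact absurd ((hcut n m).2 h3) h4
  · exact heq
  · have hDβ : DomA D' β := by
      obtain ⟨k, hk⟩ := h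
      exact ⟨k, hlt.le.trans hk⟩
    obtain ⟨n, m, h3, h4⟩ := key D' D hD' hD hDβ (sub_pos.2 hlt) (h2 (sub_pos.2 hlt))
    exact absurd ((hcut n m).1 h3) h4

lemma arch_two {D β γ : B} (hβ : 0 < β) (hγ : 0 < γ) (hD : 0 < D) (h : DomA D β) (h' : DomA β D)
    (hcut : ∀ n m : ℕ, m • β < n • D ↔ m • γ < n • ((2 : ℕ) • D))
    (h1 : 0 < γ - (2 : ℕ) • β → DomA β (γ - (2 : ℕ) • β))
    (h2 : 0 < (2 : ℕ) • β - γ → DomA β ((2 : ℕ) • β - γ)) : γ = (2 : ℕ) • β := by
  -- find `m` with `2 D < m η`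
  have key : ∀ η : B, 0 < η → DomA β η → ∃ m : ℕ, 0 < m ∧ (2 : ℕ) • D < m • η := by
    intro η hη hβη
    obtain ⟨k, hk⟩ := h
    obtain ⟨l, hl⟩ := hβη
    refine ⟨2 * (k * l) + 1, by omega, ?_⟩
    have e1 : D ≤ (k * l) • η := by
      refine hk.trans ?_
      rw [mul_smul]
      exact nsmul_le_nsmul_right hl k
    have e2 : (2 : ℕ) • D ≤ (2 * (k * l)) • η := by
      rw [mul_smul]
      exact nsmul_le_nsmul_right e1 2
    refine lt_of_le_of_lt e2 ?_
    rw [succ_nsmul]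
    exact lt_add_of_pos_right _ hη
  -- least `n` with `m x < n y`
  have key2 : ∀ (x y : B), 0 < x → 0 < y → DomA x y → ∀ m : ℕ, ∃ n : ℕ, m • x < n • y ∧
      n • y ≤ m • x + y := by
    intro x y hx hy hxy m
    obtain ⟨k, hk⟩ := hxy
    have hex : ∃ n : ℕ, m • x < n • y := ⟨m * k + 1, by
      rw [succ_nsmul, mul_smul]
      exact lt_of_le_of_lt (nsmul_le_nsmul_right hk m) (lt_add_of_pos_right _ hy)⟩
    classical
    refine ⟨Nat.find hex, Nat.find_spec hex, ?_⟩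
    have h0 : Nat.find hex ≠ 0 := by
      intro h0
      have := Nat.find_spec hex
      rw [h0, zero_smul] at this
      exact absurd this (not_lt.2 (nsmul_nonneg hx.le m))
    obtain ⟨l, hl⟩ := Nat.exists_eq_succ_of_ne_zero h0
    have h1 := Nat.find_min hex (m := l) (by omega)
    rw [not_lt] at h1
    rw [hl, Nat.succ_eq_add_one, add_smul, one_smul]
    exact add_le_add_left h1 y
  rcases lt_trichotomy γ ((2 : ℕ) • β) with hlt | heq | hlt
  · exfalso
    obtain ⟨m, hm0, hm⟩ := key _ (sub_pos.2 hlt) (h2 (sub_pos.2 hlt))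
    have h2D : 0 < (2 : ℕ) • D := nsmul_pos hD two_ne_zero
    have hγD : DomA γ ((2 : ℕ) • D) := by
      obtain ⟨k, hk⟩ := h'
      refine ⟨k, hlt.le.trans ?_⟩
      rw [← mul_smul, mul_comm, mul_smul]
      exact nsmul_le_nsmul_right hk 2
    obtain ⟨n, hn1, hn2⟩ := key2 γ ((2 : ℕ) • D) hγ h2D hγD m
    have h3 := (hcut n m).2 hn1
    have h4 : n • ((2 : ℕ) • D) < (2 : ℕ) • (m • β) := by
      refine lt_of_le_of_lt hn2 ?_
      have e : (2 : ℕ) • (m • β) = m • γ + m • ((2 : ℕ) • β - γ) := by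
        have : (2 : ℕ) • (m • β) = m • ((2 : ℕ) • β) := by rw [← mul_smul, ← mul_smul, mul_comm]
        rw [this, ← smul_add]
        congr 1; abel
      rw [e]
      exact add_lt_add_right hm _
    have h5 : (2 : ℕ) • (m • β) < (2 : ℕ) • (n • D) := nsmul_lt_nsmul_right two_ne_zero h3
    have h6 : n • ((2 : ℕ) • D) = (2 : ℕ) • (n • D) := by
      rw [← mul_smul, ← mul_smul, mul_comm]
    rw [h6] at h4
    exact lt_asymm h4 h5
  · exact heq
  · exfalso
    obtain ⟨m, hm0, hm⟩ := key _ (sub_pos.2 hlt) (h1 (sub_pos.2 hlt))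
    obtain ⟨n, hn1, hn2⟩ := key2 β D hβ hD h' m
    have h3 := (hcut n m).1 hn1
    have h4 : n • ((2 : ℕ) • D) < m • γ := by
      have e0 : n • ((2 : ℕ) • D) = (2 : ℕ) • (n • D) := by
        rw [← mul_smul, ← mul_smul, mul_comm]
      have e1 : (2 : ℕ) • (n • D) ≤ (2 : ℕ) • (m • β + D) := nsmul_le_nsmul_right hn2 2
      have e2 : m • γ = (2 : ℕ) • (m • β) + m • (γ - (2 : ℕ) • β) := by
        have : (2 : ℕ) • (m • β) = m • ((2 : ℕ) • β) := by rw [← mul_smul, ← mul_smul, mul_comm]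
        rw [this, ← smul_add]
        congr 1; abel
      rw [e0, e2]
      refine lt_of_le_of_lt e1 ?_
      rw [smul_add]
      exact add_lt_add_right hm _
    exact lt_asymm h3 h4

lemma arch_contra {Δ β : B} (hΔ : 0 < Δ) (hβ : 0 < β) (h1 : DomA β Δ) (h2 : DomA Δ β)
    (hcut : ∀ n m : ℕ, m • β < n • Δ ↔ m • β < n • ((2 : ℕ) • Δ)) : False := by
  have e1 : ∀ i : ℕ, β < (2 ^ i : ℕ) • Δ → β < Δ := by
    intro i
    induction i with
    | zero => intro h; simpa using h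
    | succ i ih =>
      intro h
      apply ih
      have := (hcut (2 ^ i) 1).2 (by
        rw [one_smul, ← mul_smul, ← pow_succ]; exact h)
      simpa using this
  obtain ⟨k, hk⟩ := h1
  have h3 : β < Δ := by
    apply e1 k
    refine lt_of_le_of_lt hk ?_
    exact nsmul_lt_nsmul_left hΔ Nat.lt_two_pow_self
  have e2 : ∀ i : ℕ, (2 ^ i : ℕ) • β < Δ := by
    intro i
    induction i with
    | zero => simpa using h3
    | succ i ih =>
      have h4 : (2 ^ (i + 1) : ℕ) • β < 1 • ((2 : ℕ) • Δ) := by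
        rw [one_smul, pow_succ, mul_comm, mul_smul]
        exact nsmul_lt_nsmul_right two_ne_zero ih
      have := (hcut 1 (2 ^ (i + 1))).2 h4
      simpa using this
  obtain ⟨l, hl⟩ := h2
  have h5 := e2 l
  have h6 : l • β ≤ (2 ^ l : ℕ) • β := nsmul_le_nsmul_left hβ.le Nat.lt_two_pow_self.le
  exact absurd (hl.trans h6) (not_le.2 h5)

end Arch

end Pool.Agent.H815
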