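import Pool.Agent.H815.CL4

set_option autoImplicit false
set_option linter.unusedSectionVars false
set_option linter.unusedVariables false

namespace Pool.Agent.H815

open Filter

/-- `a(x) = a(y)`. -/
def EqA (W : ∀ m : ℕ, (Fin m → ℤ) → Tm (Fin m)) {H : Type} [Group H] [LinearOrder H] (x y : H) :
    Prop := (W 2 ![1, -1]).ev ![x, y] = 1 ∧ (W 2 ![-1, 1]).ev ![x, y] = 1

section Nat

variable {H H' : Type} [Group H] [LinearOrder H] [Group H'] [LinearOrder H']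

lemma nat2 (f : H →* H') (hf : Monotone f) (τ : Tm (Fin 2)) (x y : H) :
    f (τ.ev ![x, y]) = τ.ev ![f x, f y] := by
  rw [Tm.ev_mono f hf]
  congr 1
  funext k
  fin_cases k <;> rfl

lemma nat3 (f : H →* H') (hf : Monotone f) (τ : Tm (Fin 3)) (x y z : H) :
    f (τ.ev ![x, y, z]) = τ.ev ![f x, f y, f z] := by
  rw [Tm.ev_mono f hf]
  congr 1
  funext k
  fin_cases k <;> rfl

lemma EqA.map {W : ∀ m : ℕ, (Fin m → ℤ) → Tm (Fin m)} (f : H →* H') (hf : Monotone f) {x y : H}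
    (h : EqA W x y) : EqA W (f x) (f y) := by
  refine ⟨?_, ?_⟩
  · rw [← nat2 f hf, h.1, map_one]
  · rw [← nat2 f hf, h.2, map_one]

lemma EqA.of_map {W : ∀ m : ℕ, (Fin m → ℤ) → Tm (Fin m)} (f : H →* H') (hf : Monotone f)
    (hi : Function.Injective f) {x y : H} (h : EqA W (f x) (f y)) : EqA W x y := by
  refine ⟨?_, ?_⟩
  · apply hi; rw [nat2 f hf, h.1, map_one]
  · apply hi; rw [nat2 f hf, h.2, map_one]

end Nat

namespace Good

variable {W : ∀ m : ℕ, (Fin m → ℤ) → Tm (Fin m)} {H : Type} [Group H] [LinearOrder H]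
  [MulLeftMono H] [MulRightMono H]

/-- Convenient form of `tup`. -/
lemma tup2 (hG : Good W H) {m : ℕ} (hm : m ≤ 6) (g : Fin m → H) (hg : ∀ i, 1 ≤ g i) :
    ∃ (B : Type) (_ : AddCommGroup B) (_ : LinearOrder B) (_ : IsOrderedAddMonoid B)
      (b : Fin m → B), (∀ i, 0 ≤ b i) ∧ (∀ i, 0 < b i ↔ g i ≠ 1) ∧
      (∀ i j, EqA W (g i) (g j) ↔ b i = b j) ∧
      (∀ (i j : Fin m) (s u : ℤ), 0 < s • b i + u • b j ↔ (W 2 ![s, u]).ev ![g i, g j] ≠ 1) ∧
      (∀ (i j l : Fin m) (s u v : ℤ), 0 < s • b i + u • b j + v • b l ↔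
        (W 3 ![s, u, v]).ev ![g i, g j, g l] ≠ 1) ∧
      (∀ (i j l : Fin m) (s u : ℤ), 0 < s • b i + u • b j → g l ≠ 1 →
        (DomA (s • b i + u • b j) (b l) ↔ Dom ((W 2 ![s, u]).ev ![g i, g j]) (g l)) ∧
        (DomA (b l) (s • b i + u • b j) ↔ Dom (g l) ((W 2 ![s, u]).ev ![g i, g j]))) ∧
      (∀ (i j k l : Fin m) (s u v : ℤ), 0 < s • b i + u • b j + v • b k → g l ≠ 1 →
        (DomA (s • b i + u • b j + v • b k) (b l) ↔
          Dom ((W 3 ![s, u, v]).ev ![g i, g j, g k]) (g l)) ∧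
        (DomA (b l) (s • b i + u • b j + v • b k) ↔
          Dom (g l) ((W 3 ![s, u, v]).ev ![g i, g j, g k]))) ∧
      (∀ i j, g i ≠ 1 → g j ≠ 1 → (DomA (b i) (b j) ↔ Dom (g i) (g j))) := by
  obtain ⟨B, i1, i2, i3, b, h1, h2, h3, h4, h5⟩ := hG.tup hm g hg
  have e2 : ∀ i j : Fin m, (fun k => g ((![i, j] : Fin 2 → Fin m) k)) = ![g i, g j] := by
    intro i j; funext k; fin_cases k <;> rfl
  have e3 : ∀ i j l : Fin m, (fun k => g ((![i, j, l] : Fin 3 → Fin m) k)) = ![g i, g j, g l] := by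
    intro i j l; funext k; fin_cases k <;> rfl
  have s2 : ∀ (i j : Fin m) (s u : ℤ),
      ∑ k, (![s, u] : Fin 2 → ℤ) k • b ((![i, j] : Fin 2 → Fin m) k) = s • b i + u • b j := by
    intro i j s u; simp [Fin.sum_univ_two]
  have s3 : ∀ (i j l : Fin m) (s u v : ℤ),
      ∑ k, (![s, u, v] : Fin 3 → ℤ) k • b ((![i, j, l] : Fin 3 → Fin m) k) =
        s • b i + u • b j + v • b l := by
    intro i j l s u v; simp [Fin.sum_univ_three]
  have p2 : ∀ (i j : Fin m) (s u : ℤ), 0 < s • b i + u • b j ↔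
      (W 2 ![s, u]).ev ![g i, g j] ≠ 1 := by
    intro i j s u
    have := h3 2 (by norm_num) ![i, j] ![s, u]
    rwa [s2, e2] at this
  refine ⟨B, i1, i2, i3, b, h1, h2, ?_, p2, ?_, ?_, ?_, h5⟩
  · intro i j
    have q1 := p2 i j 1 (-1)
    have q2 := p2 i j (-1) 1
    rw [one_smul, neg_smul, one_smul] at q1 q2
    rw [← sub_eq_add_neg, sub_pos] at q1
    rw [neg_add_eq_sub, sub_pos] at q2
    have q1' : b i ≤ b j ↔ (W 2 ![1, -1]).ev ![g i, g j] = 1 := by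
      rw [← not_lt, q1, not_not]
    have q2' : b j ≤ b i ↔ (W 2 ![-1, 1]).ev ![g i, g j] = 1 := by
      rw [← not_lt, q2, not_not]
    rw [EqA, ← q1', ← q2']
    exact ⟨fun h => le_antisymm h.1 h.2, fun h => ⟨h.le, h.ge⟩⟩
  · intro i j l s u v
    have := h3 3 (by norm_num) ![i, j, l] ![s, u, v]
    rwa [s3, e3] at this
  · intro i j l s u hp hl
    have := h4 2 (by norm_num) ![i, j] ![s, u] l
    rw [s2, e2] at this
    exact this hp hl
  · intro i j k l s u v hp hl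
    have := h4 3 (by norm_num) ![i, j, k] ![s, u, v] l
    rw [s3, e3] at this
    exact this hp hl

lemma eq_refl (hG : Good W H) {x : H} (hx : 1 ≤ x) : EqA W x x := by
  obtain ⟨B, i1, i2, i3, b, h1, h2, h3, -⟩ := hG.tup2 (m := 1) (by norm_num) ![x]
    (by intro i; fin_cases i; exact hx)
  exact (h3 0 0).2 rfl

lemma eq_symm (hG : Good W H) {x y : H} (hx : 1 ≤ x) (hy : 1 ≤ y) (h : EqA W x y) :
    EqA W y x := by
  obtain ⟨B, i1, i2, i3, b, h1, h2, h3, -⟩ := hG.tup2 (m := 2) (by norm_num) ![x, y]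
    (by intro i; fin_cases i; exacts [hx, hy])
  exact (h3 1 0).2 ((h3 0 1).1 h).symm

lemma eq_trans (hG : Good W H) {x y z : H} (hx : 1 ≤ x) (hy : 1 ≤ y) (hz : 1 ≤ z)
    (h : EqA W x y) (h' : EqA W y z) : EqA W x z := by
  obtain ⟨B, i1, i2, i3, b, h1, h2, h3, -⟩ := hG.tup2 (m := 3) (by norm_num) ![x, y, z]
    (by intro i; fin_cases i; exacts [hx, hy, hz])
  exact (h3 0 2).2 (((h3 0 1).1 h).trans ((h3 1 2).1 h'))

lemma ne_one (hG : Good W H) {x : H} (hx : 1 < x) : ¬ EqA W x 1 := by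
  obtain ⟨B, i1, i2, i3, b, h1, h2, h3, -⟩ := hG.tup2 (m := 2) (by norm_num) ![x, 1]
    (by intro i; fin_cases i; exacts [hx.le, le_rfl])
  intro h
  have e := (h3 0 1).1 h
  have p := (h2 0).2 hx.ne'
  rw [e] at p
  exact (h2 1).1 p rfl

end Good

end Pool.Agent.H815
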