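import Pool.Agent.H815.CL5

set_option autoImplicit false
set_option linter.unusedSectionVars false
set_option linter.unusedVariables false

namespace Pool.Agent.H815

open Filter

/-- The homomorphism `k ↦ x ^ k`. -/
def zp {H : Type} [Group H] (x : H) : Multiplicative ℤ →* H := zpowersHom H x

lemma zp_apply {H : Type} [Group H] (x : H) (k : ℤ) : zp x (Multiplicative.ofAdd k) = x ^ k := rfl

lemma zp_strictMono {H : Type} [Group H] [LinearOrder H] [MulLeftMono H] {x : H} (hx : 1 < x) :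
    StrictMono (zp x) := by
  intro a b hab
  have h : (0 : ℤ) < Multiplicative.toAdd b - Multiplicative.toAdd a := sub_pos.2 hab
  have h1 := one_lt_zpow hx h
  change x ^ Multiplicative.toAdd a < x ^ Multiplicative.toAdd b
  have e : x ^ Multiplicative.toAdd b = x ^ Multiplicative.toAdd a *
      x ^ (Multiplicative.toAdd b - Multiplicative.toAdd a) := by
    rw [← zpow_add]; congr 1; ring
  rw [e]
  exact lt_mul_of_one_lt_right' _ h1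

lemma zp_monotone {H : Type} [Group H] [LinearOrder H] [MulLeftMono H] {x : H} (hx : 1 ≤ x) :
    Monotone (zp x) := by
  rcases hx.eq_or_lt with h | h
  · intro a b _
    change x ^ Multiplicative.toAdd a ≤ x ^ Multiplicative.toAdd b
    rw [← h, one_zpow, one_zpow]
  · exact (zp_strictMono h).monotone

/-- Equations between powers transfer from any element `> 1`. -/
lemma transfer {H H' : Type} [Group H] [LinearOrder H] [MulLeftMono H] [Group H'] [LinearOrder H']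
    [MulLeftMono H'] {x : H} (hx : 1 < x) {y : H'} (hy : 1 ≤ y) {I : Type} (c : I → ℤ) (τ : Tm I)
    (h : τ.ev (fun i => x ^ c i) = 1) : τ.ev (fun i => y ^ c i) = 1 := by
  have h1 : τ.ev (fun i => Multiplicative.ofAdd (c i)) = 1 := by
    apply (zp_strictMono hx).injective
    rw [Tm.ev_mono (zp x) (zp_monotone hx.le), map_one]
    exact h
  have h2 := Tm.ev_mono (zp y) (zp_monotone hy) (fun i => Multiplicative.ofAdd (c i)) τ
  rw [h1, map_one] at h2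
  exact h2.symm

namespace Good

variable {W : ∀ m : ℕ, (Fin m → ℤ) → Tm (Fin m)} {H : Type} [Group H] [LinearOrder H]
  [MulLeftMono H] [MulRightMono H]

lemma same2 (hG : Good W H) {x : H} (hx : 1 ≤ x) {s u : ℤ} (h0 : s + u = 0) :
    (W 2 ![s, u]).ev ![x, x] = 1 := by
  obtain ⟨B, i1, i2, i3, b, h1, h2, h3, h4, -⟩ := hG.tup2 (m := 1) (by norm_num) ![x]
    (by intro i; fin_cases i; exact hx)
  by_contra hne
  have := (h4 0 0 s u).2 hne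
  rw [← add_smul, h0, zero_smul] at this
  exact lt_irrefl _ this

lemma same3 (hG : Good W H) {x : H} (hx : 1 ≤ x) {s u v : ℤ} (h0 : s + u + v = 0) :
    (W 3 ![s, u, v]).ev ![x, x, x] = 1 := by
  obtain ⟨B, i1, i2, i3, b, h1, h2, h3, h4, h5, -⟩ := hG.tup2 (m := 1) (by norm_num) ![x]
    (by intro i; fin_cases i; exact hx)
  by_contra hne
  have := (h5 0 0 0 s u v).2 hne
  rw [← add_smul, ← add_smul, h0, zero_smul] at this
  exact lt_irrefl _ this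

lemma ones2 (hG : Good W H) (s u : ℤ) : (W 2 ![s, u]).ev ![(1 : H), 1] = 1 := by
  obtain ⟨B, i1, i2, i3, b, h1, h2, h3, h4, -⟩ := hG.tup2 (H := H) (m := 1) (by norm_num) ![1]
    (by intro i; fin_cases i; exact le_rfl)
  by_contra hne
  have := (h4 0 0 s u).2 hne
  have hb : b 0 = 0 := by
    refine le_antisymm ?_ (h1 0)
    rw [← not_lt, h2 0]
    simp
  rw [hb, smul_zero, smul_zero, add_zero] at this
  exact lt_irrefl _ this

end Good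

section SDlem

variable {R : Type} [AddCommGroup R] [LinearOrder R] [IsOrderedAddMonoid R] {α : ZAct R}

lemma SD.pow_zero_n (r : R) (k : ℕ) : (⟨r, 0⟩ : SD α) ^ k = ⟨k • r, 0⟩ := by
  induction k with
  | zero => rw [pow_zero, zero_smul]; rfl
  | succ k ih =>
    rw [pow_succ, ih, SD.mul_def, succ_nsmul]
    simp [α.zero]

lemma SD.sq_def (x : SD α) : x ^ 2 = ⟨x.r + α.a x.n x.r, x.n + x.n⟩ := by
  rw [pow_two, SD.mul_def]

lemma SD.one_le {r : R} {n : ℤ} : (1 : SD α) ≤ ⟨r, n⟩ ↔ 0 < n ∨ 0 = n ∧ 0 ≤ r := by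
  rw [SD.le_iff]; rfl

lemma SD.one_lt {r : R} {n : ℤ} : (1 : SD α) < ⟨r, n⟩ ↔ 0 < n ∨ 0 = n ∧ 0 < r := by
  rw [SD.lt_iff]; rfl

/-- An element in the kernel of the quotient map. -/
lemma SD.of_quo {x : SD α} (h : SD.quo α x = 1) (h1 : 1 ≤ x) (hne : x ≠ 1) :
    ∃ r : R, 0 < r ∧ x = ⟨r, 0⟩ := by
  rw [SD.quo_apply, SD.one_def, SD.mk.injEq] at h
  have hlt := lt_of_le_of_ne h1 hne.symm
  refine ⟨x.r, ?_, ?_⟩
  · rw [SD.lt_iff] at hlt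
    rcases hlt with h2 | ⟨h2, h3⟩
    · exfalso; rw [h.2] at h2; exact lt_irrefl _ h2
    · exact h3
  · ext
    · rfl
    · exact h.2

end SDlem

lemma dom_H1 {x : SD H1} (h : SD.quo H1 x = 1) (h1 : 1 ≤ x) (hne : x ≠ 1) :
    Dom x ⟨1, 0⟩ ∧ Dom (⟨1, 0⟩ : SD H1) x := by
  obtain ⟨r, hr, rfl⟩ := SD.of_quo h h1 hne
  constructor
  · obtain ⟨k, hk⟩ := exists_nat_ge r
    refine ⟨k, ?_⟩
    rw [SD.pow_zero_n, SD.le_iff]
    right
    refine ⟨rfl, ?_⟩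
    simpa using hk
  · obtain ⟨k, hk⟩ := exists_nat_ge (1 / r)
    refine ⟨k, ?_⟩
    rw [SD.pow_zero_n, SD.le_iff]
    right
    refine ⟨rfl, ?_⟩
    rw [div_le_iff₀ hr] at hk
    simpa using hk

section Steps

variable {W : ∀ m : ℕ, (Fin m → ℤ) → Tm (Fin m)}

lemma lim_one (τ : Tm (Fin 2))
    (h : ∀ k : ℕ, 1 ≤ k → τ.ev ![(⟨(k : ℝ), 0⟩ : SD H1), ⟨1, 0⟩] = 1) :
    τ.ev ![(⟨0, 1⟩ : SD H1), ⟨1, 0⟩] = 1 := by
  obtain ⟨s0, hs0⟩ := eventually_atTop.1 (ev_evs ![(⟨0, 1⟩ : SD H1), ⟨1, 0⟩] τ)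
  obtain ⟨N, hN⟩ := exists_nat_ge (max s0 1)
  have hN1 : 1 ≤ N := by
    have : (1 : ℝ) ≤ N := (le_max_right _ _).trans hN
    exact_mod_cast this
  set z := τ.ev ![(⟨0, 1⟩ : SD H1), ⟨1, 0⟩] with hz
  have key : ∀ k : ℕ, N ≤ k → evs k z = 1 := by
    intro k hk
    have hks : s0 ≤ (k : ℝ) := by
      have : (N : ℝ) ≤ k := by exact_mod_cast hk
      exact ((le_max_left _ _).trans hN).trans this
    have h1 := hs0 k hks
    rw [← h1, ← h k (hN1.trans hk)]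
    congr 1
    funext i
    fin_cases i <;> simp [evs_apply]
  have h1 := key N le_rfl
  have h2 := key (N + 1) (Nat.le_succ N)
  rw [evs_apply, SD.one_def, SD.mk.injEq] at h1 h2
  have h3 := h1.1
  have h4 := h2.1
  push_cast at h4
  have h5 : (z.n : ℝ) = 0 := by linarith
  have h6 : z.r = 0 := by rw [h5] at h3; linarith
  ext
  · exact h6
  · exact_mod_cast h5

lemma stepB (hG : Good W (SD H1)) : ¬ EqA W (⟨1, 1⟩ : SD H1) ⟨0, 1⟩ := by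
  intro h
  have hR : ∀ r : ℝ, 0 ≤ r → (1 : SD H1) ≤ ⟨r, 0⟩ := fun r hr => SD.one_le.2 (Or.inr ⟨rfl, hr⟩)
  have h1 : ∀ᶠ s : ℝ in atTop, EqA W (⟨1 + s, 0⟩ : SD H1) ⟨s, 0⟩ := by
    filter_upwards [ev_evs ![(⟨1, 1⟩ : SD H1), ⟨0, 1⟩] (W 2 ![1, -1]),
      ev_evs ![(⟨1, 1⟩ : SD H1), ⟨0, 1⟩] (W 2 ![-1, 1])] with s h1 h2
    have e : (fun i => evs s ((![(⟨1, 1⟩ : SD H1), ⟨0, 1⟩] : Fin 2 → SD H1) i)) =
        ![⟨1 + s, 0⟩, ⟨s, 0⟩] := by
      funext i; fin_cases i <;> simp [evs_apply]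
    rw [e] at h1 h2
    exact ⟨by rw [h1, h.1, map_one], by rw [h2, h.2, map_one]⟩
  obtain ⟨s0, hs0⟩ := eventually_atTop.1 h1
  obtain ⟨N, hN⟩ := exists_nat_ge (max s0 1)
  have hN1 : (1 : ℝ) ≤ N := (le_max_right _ _).trans hN
  have hNs : s0 ≤ (N : ℝ) := (le_max_left _ _).trans hN
  have h2 : ∀ k : ℕ, EqA W (⟨(N : ℝ) + k, 0⟩ : SD H1) ⟨N, 0⟩ := by
    intro k
    induction k with
    | zero => simpa using hG.eq_refl (hR N (by positivity))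
    | succ k ih =>
      have h3 := hs0 ((N : ℝ) + k) (by
        have : (0 : ℝ) ≤ k := by positivity
        linarith)
      have e : 1 + ((N : ℝ) + k) = (N : ℝ) + ((k + 1 : ℕ) : ℝ) := by push_cast; ring
      rw [e] at h3
      exact hG.eq_trans (hR _ (by positivity)) (hR _ (by positivity)) (hR _ (by positivity)) h3 ih
  have h3 : ∀ k : ℕ, 1 ≤ k → EqA W (⟨(k : ℝ), 0⟩ : SD H1) ⟨1, 0⟩ := by
    intro k hk
    have h4 := h2 (N * (k - 1))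
    have hc : (0 : ℝ) < 1 / N := by positivity
    have h5 := EqA.map (scale 1 one_pos (1 / (N : ℝ))) (scale_monotone 1 one_pos hc) h4
    rw [scale_apply, scale_apply] at h5
    have e1 : 1 / (N : ℝ) * ((N : ℝ) + ((N * (k - 1) : ℕ) : ℝ)) = k := by
      rw [Nat.cast_mul, Nat.cast_sub hk]
      push_cast
      field_simp
      ring
    have e2 : 1 / (N : ℝ) * (N : ℝ) = 1 := by field_simp
    simp only [e1, e2] at h5
    exact h5
  have h4 : EqA W (⟨0, 1⟩ : SD H1) ⟨1, 0⟩ :=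
    ⟨lim_one _ fun k hk => (h3 k hk).1, lim_one _ fun k hk => (h3 k hk).2⟩
  have h5 := EqA.map (SD.quo H1) SD.quo_monotone h4
  rw [SD.quo_apply, SD.quo_apply] at h5
  exact hG.ne_one (SD.one_lt.2 (Or.inl one_pos)) h5

lemma exists_sign {B : Type} [AddCommGroup B] [LinearOrder B] [IsOrderedAddMonoid B] {x y : B}
    (h : x ≠ y) : ∃ s : ℤ, 0 < s • x + (-s) • y := by
  rcases lt_or_gt_of_ne h with h | h
  · refine ⟨-1, ?_⟩
    have : (-1 : ℤ) • x + (-(-1) : ℤ) • y = y - x := by module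
    rw [this]; exact sub_pos.2 h
  · refine ⟨1, ?_⟩
    have : (1 : ℤ) • x + (-(1) : ℤ) • y = x - y := by module
    rw [this]; exact sub_pos.2 h

lemma cut_eq {B : Type} [AddCommGroup B] [LinearOrder B] [IsOrderedAddMonoid B] (x y β : B)
    (s : ℤ) (n m : ℕ) : m • β < n • (s • x + (-s) • y) ↔
      0 < ((n : ℤ) * s) • x + (-((n : ℤ) * s)) • y + (-(m : ℤ)) • β := by
  rw [← sub_pos]
  have : n • (s • x + (-s) • y) - m • β =
    ((n : ℤ) * s) • x + (-((n : ℤ) * s)) • y + (-(m : ℤ)) • β := by module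
  rw [this]

lemma stepC (hG : Good W (SD H1)) :
    (W 2 ![2, -1]).ev ![(⟨1, 0⟩ : SD H1), ⟨2, 0⟩] = 1 ∧
    (W 2 ![-2, 1]).ev ![(⟨1, 0⟩ : SD H1), ⟨2, 0⟩] = 1 := by
  have hpos : ∀ i, (1 : SD H1) ≤ (![⟨2, 1⟩, ⟨1, 1⟩, ⟨0, 1⟩, ⟨1, 0⟩, ⟨2, 0⟩] : Fin 5 → SD H1) i := by
    intro i
    fin_cases i
    · exact SD.one_le.2 (Or.inl one_pos)
    · exact SD.one_le.2 (Or.inl one_pos)
    · exact SD.one_le.2 (Or.inl one_pos)
    · exact SD.one_le.2 (Or.inr ⟨rfl, zero_le_one⟩)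
    · exact SD.one_le.2 (Or.inr ⟨rfl, zero_le_two⟩)
  obtain ⟨B, i1, i2, i3, b, h1, h2, h3, h4, h5, h6, h7, h8⟩ :=
    hG.tup2 (m := 5) (by norm_num) ![⟨2, 1⟩, ⟨1, 1⟩, ⟨0, 1⟩, ⟨1, 0⟩, ⟨2, 0⟩] hpos
  have g0 : (![⟨2, 1⟩, ⟨1, 1⟩, ⟨0, 1⟩, ⟨1, 0⟩, ⟨2, 0⟩] : Fin 5 → SD H1) 0 = ⟨2, 1⟩ := rfl
  have g1 : (![⟨2, 1⟩, ⟨1, 1⟩, ⟨0, 1⟩, ⟨1, 0⟩, ⟨2, 0⟩] : Fin 5 → SD H1) 1 = ⟨1, 1⟩ := rfl
  have g2 : (![⟨2, 1⟩, ⟨1, 1⟩, ⟨0, 1⟩, ⟨1, 0⟩, ⟨2, 0⟩] : Fin 5 → SD H1) 2 = ⟨0, 1⟩ := rfl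
  have g3 : (![⟨2, 1⟩, ⟨1, 1⟩, ⟨0, 1⟩, ⟨1, 0⟩, ⟨2, 0⟩] : Fin 5 → SD H1) 3 = ⟨1, 0⟩ := rfl
  have g4 : (![⟨2, 1⟩, ⟨1, 1⟩, ⟨0, 1⟩, ⟨1, 0⟩, ⟨2, 0⟩] : Fin 5 → SD H1) 4 = ⟨2, 0⟩ := rfl
  have hne3 : (⟨1, 0⟩ : SD H1) ≠ 1 := by
    intro h; rw [SD.one_def, SD.mk.injEq] at h; exact one_ne_zero h.1
  have hne4 : (⟨2, 0⟩ : SD H1) ≠ 1 := by
    intro h; rw [SD.one_def, SD.mk.injEq] at h; exact two_ne_zero h.1
  have hβ : 0 < b 3 := (h2 3).2 (by rw [g3]; exact hne3)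
  have hγ : 0 < b 4 := (h2 4).2 (by rw [g4]; exact hne4)
  have hb12 : b 1 ≠ b 2 := by
    intro h
    have := (h3 1 2).2 h
    rw [g1, g2] at this
    exact stepB hG this
  obtain ⟨s, hs⟩ := exists_sign hb12
  set D := s • b 1 + (-s) • b 2 with hD
  set D' := s • b 0 + (-s) • b 1 with hD'
  have q1 : (1 : SD H1) ≤ ⟨0, 1⟩ := SD.one_le.2 (Or.inl one_pos)
  have q0 : (⟨0, 0⟩ : SD H1) = 1 := rfl
  -- classes of two-variable forms on the top elements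
  have c2 : ∀ (i j : Fin 5) (s u : ℤ),
      SD.quo H1 ((W 2 ![s, u]).ev ![(![⟨2, 1⟩, ⟨1, 1⟩, ⟨0, 1⟩, ⟨1, 0⟩, ⟨2, 0⟩] : Fin 5 → SD H1) i,
        (![⟨2, 1⟩, ⟨1, 1⟩, ⟨0, 1⟩, ⟨1, 0⟩, ⟨2, 0⟩] : Fin 5 → SD H1) j]) = 1 →
      0 < s • b i + u • b j → DomA (s • b i + u • b j) (b 3) ∧ DomA (b 3) (s • b i + u • b j) := by
    intro i j s u hq hp
    have hne := (h4 i j s u).1 hp
    have hge := hG.ge 2 (by norm_num) _ (show ∀ k, 1 ≤
      (![(![⟨2, 1⟩, ⟨1, 1⟩, ⟨0, 1⟩, ⟨1, 0⟩, ⟨2, 0⟩] : Fin 5 → SD H1) i,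
        (![⟨2, 1⟩, ⟨1, 1⟩, ⟨0, 1⟩, ⟨1, 0⟩, ⟨2, 0⟩] : Fin 5 → SD H1) j] : Fin 2 → SD H1) k from by
        intro k; fin_cases k
        · exact hpos i
        · exact hpos j) ![s, u]
    have hd := dom_H1 hq hge hne
    have hc := h6 i j 3 s u hp (by rw [g3]; exact hne3)
    exact ⟨hc.1.2 hd.1, hc.2.2 hd.2⟩
  have c3 : ∀ (i j k : Fin 5) (s u v : ℤ),
      SD.quo H1 ((W 3 ![s, u, v]).ev
        ![(![⟨2, 1⟩, ⟨1, 1⟩, ⟨0, 1⟩, ⟨1, 0⟩, ⟨2, 0⟩] : Fin 5 → SD H1) i,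
        (![⟨2, 1⟩, ⟨1, 1⟩, ⟨0, 1⟩, ⟨1, 0⟩, ⟨2, 0⟩] : Fin 5 → SD H1) j,
        (![⟨2, 1⟩, ⟨1, 1⟩, ⟨0, 1⟩, ⟨1, 0⟩, ⟨2, 0⟩] : Fin 5 → SD H1) k]) = 1 →
      0 < s • b i + u • b j + v • b k →
        DomA (b 3) (s • b i + u • b j + v • b k) := by
    intro i j k s u v hq hp
    have hne := (h5 i j k s u v).1 hp
    have hge := hG.ge 3 (by norm_num) _ (show ∀ l, 1 ≤
      (![(![⟨2, 1⟩, ⟨1, 1⟩, ⟨0, 1⟩, ⟨1, 0⟩, ⟨2, 0⟩] : Fin 5 → SD H1) i,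
        (![⟨2, 1⟩, ⟨1, 1⟩, ⟨0, 1⟩, ⟨1, 0⟩, ⟨2, 0⟩] : Fin 5 → SD H1) j,
        (![⟨2, 1⟩, ⟨1, 1⟩, ⟨0, 1⟩, ⟨1, 0⟩, ⟨2, 0⟩] : Fin 5 → SD H1) k] : Fin 3 → SD H1) l from by
        intro l; fin_cases l
        · exact hpos i
        · exact hpos j
        · exact hpos k) ![s, u, v]
    have hd := dom_H1 hq hge hne
    have hc := h7 i j k 3 s u v hp (by rw [g3]; exact hne3)
    exact hc.2.2 hd.2
  have hDβ : DomA D (b 3) ∧ DomA (b 3) D := by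
    refine c2 1 2 s (-s) ?_ hs
    rw [g1, g2, nat2 _ SD.quo_monotone, SD.quo_apply, SD.quo_apply]
    exact hG.same2 q1 (add_neg_cancel s)
  -- the automorphism tau
  have cut1 : ∀ n m : ℕ, m • b 3 < n • D ↔ m • b 3 < n • D' := by
    intro n m
    rw [hD, hD', cut_eq, cut_eq, h5, h5, g0, g1, g2, g3]
    have e := nat3 tau tau_monotone (W 3 ![(n : ℤ) * s, -((n : ℤ) * s), -(m : ℤ)])
      (⟨1, 1⟩ : SD H1) ⟨0, 1⟩ ⟨1, 0⟩
    have e1 : tau (⟨1, 1⟩ : SD H1) = ⟨2, 1⟩ := by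
      rw [tau_apply]; ext
      · simp; norm_num
      · rfl
    have e2 : tau (⟨0, 1⟩ : SD H1) = ⟨1, 1⟩ := by
      rw [tau_apply]; ext
      · simp
      · rfl
    have e3 : tau (⟨1, 0⟩ : SD H1) = ⟨1, 0⟩ := by
      rw [tau_apply]; ext
      · simp
      · rfl
    rw [e1, e2, e3] at e
    rw [← e]
    constructor
    · intro h hc; apply h; apply tau_injective; rw [hc, map_one]
    · intro h hc; apply h; rw [hc, map_one]
  have hD'pos : 0 < D' := by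
    have := (cut1 1 0).1 (by simpa using hs)
    simpa using this
  have hDD' : D = D' := by
    refine arch_eq hβ hs hD'pos hDβ.1 cut1 ?_ ?_
    · intro hp
      have e : D' - D = s • b 0 + (-2 * s) • b 1 + s • b 2 := by
        rw [hD, hD']; module
      rw [e] at hp ⊢
      refine c3 0 1 2 _ _ _ ?_ hp
      rw [g0, g1, g2, nat3 _ SD.quo_monotone, SD.quo_apply, SD.quo_apply, SD.quo_apply]
      exact hG.same3 q1 (by ring)
    · intro hp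
      have e : D - D' = (-s) • b 0 + (2 * s) • b 1 + (-s) • b 2 := by
        rw [hD, hD']; module
      rw [e] at hp ⊢
      refine c3 0 1 2 _ _ _ ?_ hp
      rw [g0, g1, g2, nat3 _ SD.quo_monotone, SD.quo_apply, SD.quo_apply, SD.quo_apply]
      exact hG.same3 q1 (by ring)
  -- the scaling by two
  have cut2 : ∀ n m : ℕ, m • b 3 < n • D ↔ m • b 4 < n • ((2 : ℕ) • D) := by
    intro n m
    have e0 : (2 : ℕ) • D = s • b 0 + (-s) • b 2 := by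
      have : (2 : ℕ) • D = D' + D := by rw [← hDD', two_nsmul]
      rw [this, hD, hD']; module
    rw [e0]
    conv_lhs => rw [hD]
    rw [cut_eq, cut_eq, h5, h5, g0, g1, g2, g3, g4]
    have e := nat3 (scale 1 one_pos 2) (scale_monotone 1 one_pos two_pos)
      (W 3 ![(n : ℤ) * s, -((n : ℤ) * s), -(m : ℤ)]) (⟨1, 1⟩ : SD H1) ⟨0, 1⟩ ⟨1, 0⟩
    simp only [scale_apply, mul_one, mul_zero] at e
    rw [← e, ← scale_apply 1 one_pos 2]
    constructor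
    · intro h hc; apply h; apply scale_injective 1 one_pos two_pos; rw [hc, map_one]
    · intro h hc; apply h; rw [hc, map_one]
  have hq2 : ∀ u v : ℤ, SD.quo H1 ((W 2 ![u, v]).ev ![(⟨1, 0⟩ : SD H1), ⟨2, 0⟩]) = 1 := by
    intro u v
    rw [nat2 _ SD.quo_monotone, SD.quo_apply, SD.quo_apply]
    exact hG.ones2 u v
  have hfin : b 4 = (2 : ℕ) • b 3 := by
    refine arch_two hβ hγ hs hDβ.1 hDβ.2 cut2 ?_ ?_
    · intro hp
      have e : b 4 - (2 : ℕ) • b 3 = (-2 : ℤ) • b 3 + (1 : ℤ) • b 4 := by module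
      rw [e] at hp ⊢
      exact (c2 3 4 _ _ (by rw [g3, g4]; exact hq2 _ _) hp).2
    · intro hp
      have e : (2 : ℕ) • b 3 - b 4 = (2 : ℤ) • b 3 + (-1 : ℤ) • b 4 := by module
      rw [e] at hp ⊢
      exact (c2 3 4 _ _ (by rw [g3, g4]; exact hq2 _ _) hp).2
  constructor
  · by_contra hne
    have := (h4 3 4 2 (-1)).2 (by rw [g3, g4]; exact hne)
    rw [hfin] at this
    have e : (2 : ℤ) • b 3 + (-1 : ℤ) • (2 : ℕ) • b 3 = 0 := by module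
    rw [e] at this
    exact lt_irrefl _ this
  · by_contra hne
    have := (h4 3 4 (-2) 1).2 (by rw [g3, g4]; exact hne)
    rw [hfin] at this
    have e : (-2 : ℤ) • b 3 + (1 : ℤ) • (2 : ℕ) • b 3 = 0 := by module
    rw [e] at this
    exact lt_irrefl _ this

end Steps

end Pool.Agent.H815
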