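import Pool.Agent.H815.CL6

set_option autoImplicit false
set_option linter.unusedSectionVars false
set_option linter.unusedVariables false

namespace Pool.Agent.H815

open Filter Topology

section Steps

variable {W : ∀ m : ℕ, (Fin m → ℤ) → Tm (Fin m)} {H : Type} [Group H] [LinearOrder H]
  [MulLeftMono H] [MulRightMono H]

lemma ev_sq (hG1 : Good W (SD H1)) {x : H} (hx : 1 ≤ x) :
    (W 2 ![2, -1]).ev ![x, x ^ 2] = 1 ∧ (W 2 ![-2, 1]).ev ![x, x ^ 2] = 1 := by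
  have e1 : (fun i => (⟨1, 0⟩ : SD H1) ^ ((![1, 2] : Fin 2 → ℤ) i)) = ![⟨1, 0⟩, ⟨2, 0⟩] := by
    funext i
    fin_cases i
    · change (⟨1, 0⟩ : SD H1) ^ (1 : ℤ) = ⟨1, 0⟩
      rw [zpow_one]
    · change (⟨1, 0⟩ : SD H1) ^ (2 : ℤ) = ⟨2, 0⟩
      rw [show (2 : ℤ) = ((2 : ℕ) : ℤ) by norm_num, zpow_natCast, SD.pow_zero_n]
      norm_num
  have e2 : (fun i => x ^ ((![1, 2] : Fin 2 → ℤ) i)) = ![x, x ^ 2] := by
    funext i
    fin_cases i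
    · change x ^ (1 : ℤ) = x
      rw [zpow_one]
    · change x ^ (2 : ℤ) = x ^ 2
      rw [show (2 : ℤ) = ((2 : ℕ) : ℤ) by norm_num, zpow_natCast]
  have hlt : (1 : SD H1) < ⟨1, 0⟩ := SD.one_lt.2 (Or.inr ⟨rfl, one_pos⟩)
  obtain ⟨h1, h2⟩ := stepC hG1
  rw [← e1] at h1 h2
  rw [← e2]
  exact ⟨transfer hlt hx _ _ h1, transfer hlt hx _ _ h2⟩

lemma two_b {B : Type} [AddCommGroup B] [LinearOrder B] [IsOrderedAddMonoid B] {x y : B}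
    (h1 : ¬ 0 < (2 : ℤ) • x + (-1 : ℤ) • y) (h2 : ¬ 0 < (-2 : ℤ) • x + (1 : ℤ) • y) :
    y = (2 : ℕ) • x := by
  have e1 : (2 : ℤ) • x + (-1 : ℤ) • y = (2 : ℕ) • x - y := by module
  have e2 : (-2 : ℤ) • x + (1 : ℤ) • y = y - (2 : ℕ) • x := by module
  rw [e1, sub_pos, not_lt] at h1
  rw [e2, sub_pos, not_lt] at h2
  exact le_antisymm h2 h1

/-- `a((1, 1)) = a((0, 1))` in `H_lam`. -/
def ZZ (W : ∀ m : ℕ, (Fin m → ℤ) → Tm (Fin m)) (lam : ℝ) : Prop :=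
  ∀ h : 0 < lam, EqA W (⟨1, 1⟩ : SD (HR lam h)) ⟨0, 1⟩

lemma ZZ_sqrt (hfin : ∀ (lam : ℝ) (h : 0 < lam), 1 ≤ lam → Good W (SD (HR lam h))) {lam : ℝ}
    (h1 : 1 ≤ lam) (hZ : ZZ W (lam ^ 2)) : ZZ W lam := by
  intro h
  have h2 : 0 < lam ^ 2 := by positivity
  have hc : 0 < 1 + lam := by positivity
  have e1 := EqA.map (scale (lam ^ 2) h2 (1 + lam)) (scale_monotone _ h2 hc) (hZ h2)
  rw [scale_apply, scale_apply] at e1
  have e2 := EqA.map (dbl lam h h2) (dbl_monotone lam h h2) e1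
  rw [dbl_apply, dbl_apply] at e2
  simp only [mul_one, mul_zero] at e2
  have hG := hfin lam h h1
  have hpos : ∀ i, (1 : SD (HR lam h)) ≤
      (![⟨1, 1⟩, ⟨0, 1⟩, ⟨1 + lam, 2⟩, ⟨0, 2⟩] : Fin 4 → SD (HR lam h)) i := by
    intro i
    fin_cases i
    · exact SD.one_le.2 (Or.inl one_pos)
    · exact SD.one_le.2 (Or.inl one_pos)
    · exact SD.one_le.2 (Or.inl two_pos)
    · exact SD.one_le.2 (Or.inl two_pos)
  obtain ⟨B, i1, i2, i3, b, k1, k2, k3, k4, -⟩ :=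
    hG.tup2 (m := 4) (by norm_num) ![⟨1, 1⟩, ⟨0, 1⟩, ⟨1 + lam, 2⟩, ⟨0, 2⟩] hpos
  have b23 : b 2 = b 3 := (k3 2 3).1 e2
  have s1 : (⟨1, 1⟩ : SD (HR lam h)) ^ 2 = ⟨1 + lam, 2⟩ := by
    rw [SD.sq_def]
    simp only [HR_a, zpow_one, mul_one]
    rfl
  have s2 : (⟨0, 1⟩ : SD (HR lam h)) ^ 2 = ⟨0, 2⟩ := by
    rw [SD.sq_def]
    simp only [HR_a, mul_zero, add_zero]
    rfl
  have q1 := ev_sq (hfin 1 one_pos le_rfl) (hpos 0)
  have q2 := ev_sq (hfin 1 one_pos le_rfl) (hpos 1)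
  have t1 : b 2 = (2 : ℕ) • b 0 := by
    refine two_b ?_ ?_
    · rw [k4 0 2, not_not]
      change (W 2 ![2, -1]).ev ![(⟨1, 1⟩ : SD (HR lam h)), ⟨1 + lam, 2⟩] = 1
      rw [← s1]; exact q1.1
    · rw [k4 0 2, not_not]
      change (W 2 ![-2, 1]).ev ![(⟨1, 1⟩ : SD (HR lam h)), ⟨1 + lam, 2⟩] = 1
      rw [← s1]; exact q1.2
  have t2 : b 3 = (2 : ℕ) • b 1 := by
    refine two_b ?_ ?_
    · rw [k4 1 3, not_not]
      change (W 2 ![2, -1]).ev ![(⟨0, 1⟩ : SD (HR lam h)), ⟨0, 2⟩] = 1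
      rw [← s2]; exact q2.1
    · rw [k4 1 3, not_not]
      change (W 2 ![-2, 1]).ev ![(⟨0, 1⟩ : SD (HR lam h)), ⟨0, 2⟩] = 1
      rw [← s2]; exact q2.2
  have t3 : b 0 = b 1 := by
    rw [t1, t2] at b23
    exact (nsmul_right_injective two_ne_zero) b23
  exact (k3 0 1).2 t3

lemma ZZ_all (hfin : ∀ (lam : ℝ) (h : 0 < lam), 1 ≤ lam → Good W (SD (HR lam h)))
    (hev : ∀ᶠ lam in atTop, ZZ W lam) {lam : ℝ} (h1 : 1 < lam) : ZZ W lam := by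
  have key : ∀ k : ℕ, ZZ W (lam ^ (2 ^ k)) → ZZ W lam := by
    intro k
    induction k with
    | zero => intro h; simpa using h
    | succ k ih =>
      intro h
      apply ih
      apply ZZ_sqrt hfin (one_le_pow₀ h1.le)
      rwa [← pow_mul, ← pow_succ]
  have ht : Tendsto (fun k : ℕ => lam ^ (2 ^ k)) atTop atTop :=
    (tendsto_pow_atTop_atTop_of_one_lt h1).comp (tendsto_pow_atTop_atTop_of_one_lt one_lt_two)
  obtain ⟨k, hk⟩ := (ht.eventually hev).exists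
  exact key k hk

lemma lim_cont (τ : Tm (Fin 2))
    (h : ∀ (lam : ℝ) (hl : 0 < lam), 1 < lam → τ.ev ![(⟨1, 1⟩ : SD (HR lam hl)), ⟨0, 1⟩] = 1) :
    τ.ev ![(⟨1, 1⟩ : SD H1), ⟨0, 1⟩] = 1 := by
  obtain ⟨D, n, hD, hev⟩ := ev_cont ![((1 : ℝ), (1 : ℤ)), (0, 1)] τ
  have e : ∀ (lam : ℝ) (hl : 0 < lam),
      (fun i => (⟨((![((1 : ℝ), (1 : ℤ)), (0, 1)] : Fin 2 → ℝ × ℤ) i).1,
        ((![((1 : ℝ), (1 : ℤ)), (0, 1)] : Fin 2 → ℝ × ℤ) i).2⟩ : SD (HR lam hl))) =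
        ![⟨1, 1⟩, ⟨0, 1⟩] := by
    intro lam hl; funext i; fin_cases i <;> rfl
  have h1 : ∀ lam : ℝ, 1 < lam → D lam = 0 ∧ n = 0 := by
    intro lam hl
    have hl0 : 0 < lam := by linarith
    have := hev lam hl0
    rw [e, h lam hl0 hl, SD.one_def, SD.mk.injEq] at this
    exact ⟨this.1.symm, this.2.symm⟩
  have hn : n = 0 := (h1 2 one_lt_two).2
  have hc : ContinuousAt D 1 := hD.continuousAt (Ioi_mem_nhds one_pos)
  have ht : Tendsto D (𝓝[>] (1 : ℝ)) (𝓝 (D 1)) := hc.tendsto.mono_left nhdsWithin_le_nhds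
  have ht' : Tendsto D (𝓝[>] (1 : ℝ)) (𝓝 0) := by
    refine Tendsto.congr' ?_ tendsto_const_nhds
    filter_upwards [self_mem_nhdsWithin] with x hx
    exact ((h1 x hx).1).symm
  have hD1 : D 1 = 0 := tendsto_nhds_unique ht ht'
  have := hev 1 one_pos
  rw [e] at this
  rw [this, hn, hD1]
  rfl

lemma stepD (hfin : ∀ (lam : ℝ) (h : 0 < lam), 1 ≤ lam → Good W (SD (HR lam h))) :
    ¬ ∀ᶠ lam in atTop, ZZ W lam := by
  intro hev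
  refine stepB (hfin 1 one_pos le_rfl) ⟨?_, ?_⟩
  · exact lim_cont _ fun lam hl h1 => (ZZ_all hfin hev h1 hl).1
  · exact lim_cont _ fun lam hl h1 => (ZZ_all hfin hev h1 hl).2

/-- `X - 1`. -/
noncomputable def qq : RI := mon 1 - mon 0

lemma qq_pos : 0 < qq := by
  rw [qq, sub_pos]
  by_contra h
  have h1 : mon 1 ≤ (1 : ℕ) • mon 0 := by rw [one_smul]; exact not_lt.1 h
  have := mon_class h1
  omega

lemma stepE1 (hfin : ∀ (lam : ℝ) (h : 0 < lam), 1 ≤ lam → Good W (SD (HR lam h))) :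
    ¬ EqA W (⟨qq, 1⟩ : SD MI) ⟨0, 1⟩ := by
  intro h
  apply stepD hfin
  filter_upwards [ev_evL ![(⟨qq, 1⟩ : SD MI), ⟨0, 1⟩] (W 2 ![1, -1]),
    ev_evL ![(⟨qq, 1⟩ : SD MI), ⟨0, 1⟩] (W 2 ![-1, 1]), eventually_gt_atTop 1]
    with lam h1 h2 hl h0
  have e : (fun i => evL lam h0 ((![(⟨qq, 1⟩ : SD MI), ⟨0, 1⟩] : Fin 2 → SD MI) i)) =
      ![⟨lam - 1, 1⟩, ⟨0, 1⟩] := by
    funext i
    fin_cases i
    · change evL lam h0 ⟨qq, 1⟩ = ⟨lam - 1, 1⟩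
      rw [evL_apply, qq, map_sub, evl_mon, evl_mon]
      simp
    · change evL lam h0 ⟨0, 1⟩ = ⟨0, 1⟩
      rw [evL_apply, map_zero]
  have h1' := h1 h0
  have h2' := h2 h0
  rw [e] at h1' h2'
  have h3 : EqA W (⟨lam - 1, 1⟩ : SD (HR lam h0)) ⟨0, 1⟩ :=
    ⟨by rw [h1', h.1, map_one], by rw [h2', h.2, map_one]⟩
  have hc : 0 < 1 / (lam - 1) := by
    have : 0 < lam - 1 := by linarith
    positivity
  have h4 := EqA.map (scale lam h0 (1 / (lam - 1))) (scale_monotone lam h0 hc) h3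
  rw [scale_apply, scale_apply] at h4
  have e1 : 1 / (lam - 1) * (lam - 1) = 1 := by
    have : lam - 1 ≠ 0 := by linarith
    field_simp
  simp only [e1, mul_zero] at h4
  exact h4

/-- The contradiction. -/
theorem no_good (hfin : ∀ (lam : ℝ) (h : 0 < lam), 1 ≤ lam → Good W (SD (HR lam h)))
    (hG : Good W (SD MI)) : False := by
  have hG1 := hfin 1 one_pos le_rfl
  have hx1 : (1 : SD MI) ≤ ⟨qq, 1⟩ := SD.one_le.2 (Or.inl one_pos)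
  have hx2 : (1 : SD MI) ≤ ⟨0, 1⟩ := SD.one_le.2 (Or.inl one_pos)
  have hmon : ∀ j, (1 : SD MI) ≤ ⟨mon j, 0⟩ := fun j => SD.one_le.2 (Or.inr ⟨rfl, (mon_pos j).le⟩)
  have hmon1 : ∀ j, (⟨mon j, 0⟩ : SD MI) ≠ 1 := by
    intro j h
    rw [SD.one_def, SD.mk.injEq] at h
    exact (mon_pos j).ne' h.1
  -- squares
  have s1 : iota (⟨qq, 1⟩ : SD MI) = ⟨qq, 1⟩ ^ 2 := by
    rw [SD.sq_def, iota_apply]
    ext
    · simp only
      rw [MI_a, qq, map_sub, map_sub, rei_mon, rei_mon, rei_mon, rei_mon]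
      norm_num
    · simp
  have s2 : iota (⟨0, 1⟩ : SD MI) = ⟨0, 1⟩ ^ 2 := by
    rw [SD.sq_def, iota_apply]
    ext
    · simp only
      rw [map_zero, MI_a, map_zero, add_zero]
    · simp
  have s3 : ∀ j, iota (⟨mon j, 0⟩ : SD MI) = ⟨mon (2 * j), 0⟩ := by
    intro j
    rw [iota_apply]
    ext
    · simp only
      rw [rei_mon]
    · simp
  -- the sign
  obtain ⟨s, hs⟩ : ∃ s : ℤ, (W 2 ![s, -s]).ev ![(⟨qq, 1⟩ : SD MI), ⟨0, 1⟩] ≠ 1 := by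
    by_contra hc
    push Not at hc
    exact stepE1 hfin ⟨hc 1, by have := hc (-1); rwa [neg_neg] at this⟩
  set w := (W 2 ![s, -s]).ev ![(⟨qq, 1⟩ : SD MI), ⟨0, 1⟩] with hw
  have hw1 : 1 ≤ w := by
    rw [hw]
    apply hG.ge 2 (by norm_num)
    intro i
    fin_cases i
    exacts [hx1, hx2]
  have hwq : SD.quo MI w = 1 := by
    rw [hw, nat2 _ SD.quo_monotone, SD.quo_apply, SD.quo_apply]
    exact hG.same2 hx2 (add_neg_cancel s)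
  obtain ⟨p, hp, hwp⟩ := SD.of_quo hwq hw1 hs
  obtain ⟨j, hj1, k, hj2⟩ := exists_class hp
  have hiw : iota w = (W 2 ![s, -s]).ev ![(⟨qq, 1⟩ : SD MI) ^ 2, ⟨0, 1⟩ ^ 2] := by
    rw [hw, nat2 _ iota_monotone, s1, s2]
  have hiw' : iota w = ⟨rei (fun k => 2 * k) p, 0⟩ := by
    rw [hwp, iota_apply]; simp
  have d1 : Dom w ⟨mon j, 0⟩ := by
    refine ⟨k, ?_⟩
    rw [hwp, SD.pow_zero_n, SD.le_iff]
    exact Or.inr ⟨rfl, hj2⟩
  have d2 : Dom (⟨mon j, 0⟩ : SD MI) w := by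
    refine ⟨2, ?_⟩
    rw [hwp, SD.pow_zero_n, SD.le_iff]
    exact Or.inr ⟨rfl, hj1⟩
  have d3 : Dom (iota w) ⟨mon (2 * j), 0⟩ := by
    obtain ⟨l, hl⟩ := d1
    refine ⟨l, ?_⟩
    have := iota_monotone hl
    rwa [map_pow, s3] at this
  have d4 : Dom (⟨mon (2 * j), 0⟩ : SD MI) (iota w) := by
    obtain ⟨l, hl⟩ := d2
    refine ⟨l, ?_⟩
    have := iota_monotone hl
    rwa [map_pow, s3] at this
  -- six elements
  have main : ∀ j' : ℤ, ∃ (B : Type) (_ : AddCommGroup B) (_ : LinearOrder B)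
      (_ : IsOrderedAddMonoid B) (Δ β γ : B), 0 < Δ ∧ 0 < β ∧
      (DomA Δ β ↔ Dom w ⟨mon j', 0⟩) ∧ (DomA β Δ ↔ Dom ⟨mon j', 0⟩ w) ∧
      (DomA ((2 : ℕ) • Δ) γ ↔ Dom (iota w) ⟨mon (2 * j'), 0⟩) ∧
      (DomA γ ((2 : ℕ) • Δ) ↔ Dom ⟨mon (2 * j'), 0⟩ (iota w)) ∧
      (DomA β γ ↔ Dom (⟨mon j', 0⟩ : SD MI) ⟨mon (2 * j'), 0⟩) ∧
      (DomA γ β ↔ Dom (⟨mon (2 * j'), 0⟩ : SD MI) ⟨mon j', 0⟩) ∧
      (∀ n m : ℕ, m • β < n • Δ ↔ m • γ < n • ((2 : ℕ) • Δ)) ∧ (j' = 0 → γ = β) := by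
    intro j'
    have hpos : ∀ i, (1 : SD MI) ≤ (![⟨qq, 1⟩, ⟨0, 1⟩, ⟨qq, 1⟩ ^ 2, ⟨0, 1⟩ ^ 2, ⟨mon j', 0⟩,
        ⟨mon (2 * j'), 0⟩] : Fin 6 → SD MI) i := by
      intro i
      fin_cases i
      · exact hx1
      · exact hx2
      · exact one_le_pow_of_one_le' hx1 2
      · exact one_le_pow_of_one_le' hx2 2
      · exact hmon _
      · exact hmon _
    obtain ⟨B, i1, i2, i3, b, k1, k2, k3, k4, k5, k6, k7, k8⟩ :=
      hG.tup2 (m := 6) le_rfl ![⟨qq, 1⟩, ⟨0, 1⟩, ⟨qq, 1⟩ ^ 2, ⟨0, 1⟩ ^ 2, ⟨mon j', 0⟩,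
        ⟨mon (2 * j'), 0⟩] hpos
    have t1 : b 2 = (2 : ℕ) • b 0 := by
      have q := ev_sq hG1 hx1
      refine two_b ?_ ?_
      · rw [k4 0 2, not_not]; exact q.1
      · rw [k4 0 2, not_not]; exact q.2
    have t2 : b 3 = (2 : ℕ) • b 1 := by
      have q := ev_sq hG1 hx2
      refine two_b ?_ ?_
      · rw [k4 1 3, not_not]; exact q.1
      · rw [k4 1 3, not_not]; exact q.2
    have hΔ : 0 < s • b 0 + (-s) • b 1 := (k4 0 1 s (-s)).2 hs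
    have e2 : (2 : ℕ) • (s • b 0 + (-s) • b 1) = s • b 2 + (-s) • b 3 := by
      rw [t1, t2]; module
    have hΔ2 : 0 < s • b 2 + (-s) • b 3 := by
      rw [← e2]; exact nsmul_pos hΔ two_ne_zero
    have hb4 : 0 < b 4 := (k2 4).2 (hmon1 _)
    have c1 := k6 0 1 4 s (-s) hΔ (hmon1 _)
    have c2 := k6 2 3 5 s (-s) hΔ2 (hmon1 _)
    have c3 := k8 4 5 (hmon1 _) (hmon1 _)
    have c4 := k8 5 4 (hmon1 _) (hmon1 _)
    refine ⟨B, i1, i2, i3, s • b 0 + (-s) • b 1, b 4, b 5, hΔ, hb4, c1.1, c1.2, ?_, ?_, c3, c4, ?_, ?_⟩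
    · rw [e2, hiw]; exact c2.1
    · rw [e2, hiw]; exact c2.2
    · intro n m
      rw [e2, cut_eq, cut_eq, k5, k5]
      have e := nat3 iota iota_monotone (W 3 ![(n : ℤ) * s, -((n : ℤ) * s), -(m : ℤ)])
        (⟨qq, 1⟩ : SD MI) ⟨0, 1⟩ ⟨mon j', 0⟩
      rw [s1, s2, s3] at e
      change (W 3 ![(n : ℤ) * s, -((n : ℤ) * s), -(m : ℤ)]).ev
          ![(⟨qq, 1⟩ : SD MI), ⟨0, 1⟩, ⟨mon j', 0⟩] ≠ 1 ↔
        (W 3 ![(n : ℤ) * s, -((n : ℤ) * s), -(m : ℤ)]).ev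
          ![(⟨qq, 1⟩ : SD MI) ^ 2, ⟨0, 1⟩ ^ 2, ⟨mon (2 * j'), 0⟩] ≠ 1
      rw [← e]
      constructor
      · intro h hc; apply h; apply iota_injective; rw [hc, map_one]
      · intro h hc; apply h; rw [hc, map_one]
    · intro h0
      refine (k3 5 4).1 ?_
      change EqA W (⟨mon (2 * j'), 0⟩ : SD MI) ⟨mon j', 0⟩
      rw [h0, mul_zero]
      exact hG.eq_refl (hmon 0)
  -- `j = 0`
  have hj0 : j = 0 := by
    obtain ⟨B, i1, i2, i3, Δ, β, γ, hΔ, hβ, a1, a2, a3, a4, a5, a6, -⟩ := main j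
    have x1 : DomA β γ := by
      obtain ⟨k1, hk1⟩ := a2.2 d2
      obtain ⟨k2, hk2⟩ := a3.2 d3
      refine ⟨k1 * k2, hk1.trans ?_⟩
      rw [mul_smul]
      refine nsmul_le_nsmul_right (le_trans ?_ hk2) k1
      rw [two_nsmul]
      exact le_add_of_nonneg_right hΔ.le
    have x2 : DomA γ β := by
      obtain ⟨k1, hk1⟩ := a1.2 d1
      obtain ⟨k2, hk2⟩ := a4.2 d4
      refine ⟨k2 * (2 * k1), hk2.trans ?_⟩
      rw [mul_smul, mul_smul]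
      exact nsmul_le_nsmul_right (nsmul_le_nsmul_right hk1 2) k2
    obtain ⟨l1, hl1⟩ := a5.1 x1
    obtain ⟨l2, hl2⟩ := a6.1 x2
    rw [SD.pow_zero_n, SD.le_iff] at hl1 hl2
    have y1 : mon j ≤ l1 • mon (2 * j) := by
      rcases hl1 with h | h
      · exact absurd h (lt_irrefl _)
      · exact h.2
    have y2 : mon (2 * j) ≤ l2 • mon j := by
      rcases hl2 with h | h
      · exact absurd h (lt_irrefl _)
      · exact h.2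
    have z1 := mon_class y1
    have z2 := mon_class y2
    omega
  obtain ⟨B, i1, i2, i3, Δ, β, γ, hΔ, hβ, a1, a2, a3, a4, a5, a6, a7, a8⟩ := main j
  rw [a8 hj0] at a7
  exact arch_contra hΔ hβ (a2.2 d2) (a1.2 d1) a7

end Steps

end Pool.Agent.H815
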