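import Pool.Agent.H815.CL7

set_option autoImplicit false
set_option linter.unusedSectionVars false
set_option linter.unusedVariables false

namespace Pool.Agent.H815

/-- Convex `l`-subgroups. -/
abbrev CS (X : Type) [Group X] [Lattice X] : Type :=
  {H : Subgroup X //
    (∀ x ∈ H, ∀ y ∈ H, x ⊔ y ∈ H ∧ x ⊓ y ∈ H) ∧
    ∀ x ∈ H, ∀ y ∈ H, ∀ z : X, x ≤ z → z ≤ y → z ∈ H}

section LG

variable {X L : Type} [Group X] [Lattice X] [MulLeftMono X] [MulRightMono X]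
  [Group L] [Lattice L] [MulLeftMono L] [MulRightMono L]

lemma pow_mul_le {l : L} {x y : L} {n m : ℕ} (hx : x ≤ l ^ n) (hy : y ≤ l ^ m) :
    x * y ≤ l ^ (n + m) := by
  rw [pow_add]; exact mul_le_mul' hx hy

lemma pow_le_add {l : L} (hl : 1 ≤ l) (n m : ℕ) : l ^ n ≤ l ^ (n + m) ∧ l ^ m ≤ l ^ (n + m) :=
  ⟨pow_le_pow_right' hl (Nat.le_add_right _ _), pow_le_pow_right' hl (Nat.le_add_left _ _)⟩

/-- Preimage of a principal convex `l`-subgroup. -/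
def cp (π : X →* L) (hπ : ∀ x y, π (x ⊔ y) = π x ⊔ π y) (l : L) (hl : 1 ≤ l) : CS X :=
  ⟨{ carrier := {x | ∃ k : ℕ, π x ≤ l ^ k ∧ (π x)⁻¹ ≤ l ^ k}
     one_mem' := ⟨0, by simp, by simp⟩
     inv_mem' := by
       rintro x ⟨k, h1, h2⟩
       exact ⟨k, by rw [map_inv]; exact h2, by rw [map_inv, inv_inv]; exact h1⟩
     mul_mem' := by
       rintro x y ⟨k, h1, h2⟩ ⟨m, h3, h4⟩
       refine ⟨k + m, ?_, ?_⟩
       · rw [map_mul]; exact pow_mul_le h1 h3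
       · rw [map_mul, mul_inv_rev, add_comm]; exact pow_mul_le h4 h2 },
   by
     rintro x ⟨k, h1, h2⟩ y ⟨m, h3, h4⟩
     obtain ⟨p1, p2⟩ := pow_le_add hl k m
     constructor
     · refine ⟨k + m, ?_, ?_⟩
       · rw [hπ]; exact sup_le (h1.trans p1) (h3.trans p2)
       · rw [hπ, inv_sup]; exact inf_le_left.trans (h2.trans p1)
     · have e : π (x ⊓ y) = π x ⊓ π y := by
         have : x ⊓ y = (x⁻¹ ⊔ y⁻¹)⁻¹ := by rw [inv_sup, inv_inv, inv_inv]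
         rw [this, map_inv, hπ, map_inv, map_inv, inv_sup, inv_inv, inv_inv]
       refine ⟨k + m, ?_, ?_⟩
       · rw [e]; exact inf_le_left.trans (h1.trans p1)
       · rw [e, inv_inf]; exact sup_le (h2.trans p1) (h4.trans p2),
   by
     rintro x ⟨k, h1, h2⟩ y ⟨m, h3, h4⟩ z hxz hzy
     have hmono : ∀ {a b : X}, a ≤ b → π a ≤ π b := by
       intro a b hab
       rw [← sup_eq_right.2 hab, hπ]
       exact le_sup_left
     obtain ⟨p1, p2⟩ := pow_le_add hl k m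
     refine ⟨k + m, (hmono hzy).trans (h3.trans p2), ?_⟩
     exact (inv_le_inv_iff.2 (hmono hxz)).trans (h2.trans p1)⟩

lemma mem_cp {π : X →* L} {hπ : ∀ x y, π (x ⊔ y) = π x ⊔ π y} {l : L} {hl : 1 ≤ l} {x : X} :
    x ∈ (cp π hπ l hl).1 ↔ ∃ k : ℕ, π x ≤ l ^ k ∧ (π x)⁻¹ ≤ l ^ k := Iff.rfl

/-- Principal convex `l`-subgroups. -/
def pr (x : X) (hx : 1 ≤ x) : CS X := cp (MonoidHom.id X) (fun _ _ => rfl) x hx

lemma mem_pr {x : X} {hx : 1 ≤ x} {y : X} : y ∈ (pr x hx).1 ↔ ∃ k : ℕ, y ≤ x ^ k ∧ y⁻¹ ≤ x ^ k :=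
  Iff.rfl

lemma mem_pr_self {x : X} (hx : 1 ≤ x) : x ∈ (pr x hx).1 :=
  mem_pr.2 ⟨1, by simp, by rw [pow_one]; exact (Left.inv_le_one_iff.2 hx).trans hx⟩

lemma pr_le {x : X} (hx : 1 ≤ x) (C : CS X) : pr x hx ≤ C ↔ x ∈ C.1 := by
  constructor
  · intro h
    exact h (mem_pr_self hx)
  · intro h y hy
    obtain ⟨k, h1, h2⟩ := mem_pr.1 hy
    have h3 : x ^ k ∈ C.1 := pow_mem h k
    refine C.2.2 _ (inv_mem h3) _ h3 y ?_ h1
    exact inv_le'.1 h2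

/-- The kernel. -/
def ke (π : X →* L) (hπ : ∀ x y, π (x ⊔ y) = π x ⊔ π y) : CS X := cp π hπ 1 le_rfl

lemma mem_ke {π : X →* L} {hπ : ∀ x y, π (x ⊔ y) = π x ⊔ π y} {x : X} :
    x ∈ (ke π hπ).1 ↔ π x = 1 := by
  rw [ke, mem_cp]
  simp only [one_pow]
  constructor
  · rintro ⟨_, h1, h2⟩
    exact le_antisymm h1 (by rwa [Left.inv_le_one_iff] at h2)
  · intro h
    exact ⟨0, by rw [h], by rw [h, inv_one]⟩

lemma cp_least (π : X →* L) (hπ : ∀ x y, π (x ⊔ y) = π x ⊔ π y) {x : X} (hx : 1 ≤ x)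
    (hx' : 1 ≤ π x) (C : CS X) (h1 : x ∈ C.1) (h2 : ke π hπ ≤ C) : cp π hπ (π x) hx' ≤ C := by
  have hinf : ∀ a b, π (a ⊓ b) = π a ⊓ π b := by
    intro a b
    have : a ⊓ b = (a⁻¹ ⊔ b⁻¹)⁻¹ := by rw [inv_sup, inv_inv, inv_inv]
    rw [this, map_inv, hπ, map_inv, map_inv, inv_sup, inv_inv, inv_inv]
  -- positive elements
  have key : ∀ u : X, 1 ≤ u → ∀ k : ℕ, π u ≤ π x ^ k → u ∈ C.1 := by
    intro u hu k hk
    have h3 : x ^ k ∈ C.1 := pow_mem h1 k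
    have h4 : u ⊓ x ^ k ∈ C.1 :=
      C.2.2 1 (one_mem _) _ h3 _ (le_inf hu (one_le_pow_of_one_le' hx k)) inf_le_right
    have h5 : (u ⊓ x ^ k)⁻¹ * u ∈ C.1 := by
      apply h2
      rw [mem_ke, map_mul, map_inv, hinf, map_pow, inf_eq_left.2 hk, inv_mul_cancel]
    have h6 := mul_mem h4 h5
    rwa [mul_inv_cancel_left] at h6
  intro y hy
  obtain ⟨k, k1, k2⟩ := mem_cp.1 hy
  have hxk : 1 ≤ π x ^ k := one_le_pow_of_one_le' hx' k
  have a1 : y ⊔ 1 ∈ C.1 := by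
    apply key _ le_sup_right k
    rw [hπ, map_one]; exact sup_le k1 hxk
  have a2 : y⁻¹ ⊔ 1 ∈ C.1 := by
    apply key _ le_sup_right k
    rw [hπ, map_one, map_inv]; exact sup_le k2 hxk
  refine C.2.2 _ (inv_mem a2) _ a1 y ?_ le_sup_left
  exact inv_le'.1 le_sup_left

lemma inf_mul_one {a b c : X} (ha : 1 ≤ a) (hb : 1 ≤ b) (hc : 1 ≤ c) (h1 : a ⊓ b = 1)
    (h2 : a ⊓ c = 1) : a ⊓ (b * c) = 1 := by
  apply le_antisymm
  · have e : (a ⊓ b) * (a ⊓ c) = 1 := by rw [h1, h2, one_mul]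
    rw [← e, mul_inf, inf_mul, inf_mul]
    refine le_inf (le_inf ?_ ?_) (le_inf ?_ ?_)
    · exact inf_le_left.trans (le_mul_of_one_le_left' ha)
    · exact inf_le_left.trans (le_mul_of_one_le_left' hb)
    · exact inf_le_left.trans (le_mul_of_one_le_right' hc)
    · exact inf_le_right
  · exact le_inf ha (one_le_mul hb hc)

lemma inf_pow_one {a b : X} (ha : 1 ≤ a) (hb : 1 ≤ b) (h : a ⊓ b = 1) (n m : ℕ) :
    a ^ n ⊓ b ^ m = 1 := by
  have h1 : ∀ m : ℕ, a ⊓ b ^ m = 1 := by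
    intro m
    induction m with
    | zero => rw [pow_zero]; exact inf_eq_right.2 ha
    | succ m ih => rw [pow_succ]; exact inf_mul_one ha (one_le_pow_of_one_le' hb m) hb ih h
  induction n with
  | zero => rw [pow_zero]; exact inf_eq_left.2 (one_le_pow_of_one_le' hb m)
  | succ n ih =>
    rw [pow_succ, inf_comm]
    rw [inf_comm] at ih
    exact inf_mul_one (one_le_pow_of_one_le' hb m) (one_le_pow_of_one_le' ha n) ha ih
      (by rw [inf_comm]; exact h1 m)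

end LG

section Iso

variable {X Y : Type} [Group X] [Lattice X] [MulLeftMono X] [MulRightMono X]
  [Group Y] [Lattice Y] [MulLeftMono Y] [MulRightMono Y]

/-- Principal convex `l`-subgroups correspond to principal ones. -/
lemma exists_pr (e : CS X ≃o CS Y) (x : X) (hx : 1 ≤ x) :
    ∃ (y : Y) (hy : 1 ≤ y), e (pr x hx) = pr y hy := by
  let U : CS X := ⟨{
      carrier := {z | ∃ (y : Y) (hy : 1 ≤ y), y ∈ (e (pr x hx)).1 ∧ z ∈ (e.symm (pr y hy)).1}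
      one_mem' := ⟨1, le_rfl, one_mem _, one_mem _⟩
      inv_mem' := by
        rintro z ⟨y, hy, h1, h2⟩
        exact ⟨y, hy, h1, inv_mem h2⟩
      mul_mem' := by
        rintro z w ⟨y, hy, h1, h2⟩ ⟨y', hy', h3, h4⟩
        have hyy : 1 ≤ y ⊔ y' := hy.trans le_sup_left
        refine ⟨y ⊔ y', hyy, ((e (pr x hx)).2.1 _ h1 _ h3).1, ?_⟩
        have p1 : pr y hy ≤ pr (y ⊔ y') hyy :=
          (pr_le hy _).2 (mem_pr.2 ⟨1, by rw [pow_one]; exact le_sup_left,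
            by rw [pow_one]; exact (Left.inv_le_one_iff.2 hy).trans hyy⟩)
        have p2 : pr y' hy' ≤ pr (y ⊔ y') hyy :=
          (pr_le hy' _).2 (mem_pr.2 ⟨1, by rw [pow_one]; exact le_sup_right,
            by rw [pow_one]; exact (Left.inv_le_one_iff.2 hy').trans hyy⟩)
        exact mul_mem (e.symm.monotone p1 h2) (e.symm.monotone p2 h4) },
    by
      rintro z ⟨y, hy, h1, h2⟩ w ⟨y', hy', h3, h4⟩
      have hyy : 1 ≤ y ⊔ y' := hy.trans le_sup_left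
      have p1 : pr y hy ≤ pr (y ⊔ y') hyy :=
        (pr_le hy _).2 (mem_pr.2 ⟨1, by rw [pow_one]; exact le_sup_left,
          by rw [pow_one]; exact (Left.inv_le_one_iff.2 hy).trans hyy⟩)
      have p2 : pr y' hy' ≤ pr (y ⊔ y') hyy :=
        (pr_le hy' _).2 (mem_pr.2 ⟨1, by rw [pow_one]; exact le_sup_right,
          by rw [pow_one]; exact (Left.inv_le_one_iff.2 hy').trans hyy⟩)
      have q := (e.symm (pr (y ⊔ y') hyy)).2.1 _ (e.symm.monotone p1 h2) _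
        (e.symm.monotone p2 h4)
      exact ⟨⟨y ⊔ y', hyy, ((e (pr x hx)).2.1 _ h1 _ h3).1, q.1⟩,
        ⟨y ⊔ y', hyy, ((e (pr x hx)).2.1 _ h1 _ h3).1, q.2⟩⟩,
    by
      rintro z ⟨y, hy, h1, h2⟩ w ⟨y', hy', h3, h4⟩ v hzv hvw
      have hyy : 1 ≤ y ⊔ y' := hy.trans le_sup_left
      have p1 : pr y hy ≤ pr (y ⊔ y') hyy :=
        (pr_le hy _).2 (mem_pr.2 ⟨1, by rw [pow_one]; exact le_sup_left,
          by rw [pow_one]; exact (Left.inv_le_one_iff.2 hy).trans hyy⟩)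
      have p2 : pr y' hy' ≤ pr (y ⊔ y') hyy :=
        (pr_le hy' _).2 (mem_pr.2 ⟨1, by rw [pow_one]; exact le_sup_right,
          by rw [pow_one]; exact (Left.inv_le_one_iff.2 hy').trans hyy⟩)
      have q := (e.symm (pr (y ⊔ y') hyy)).2.2 _ (e.symm.monotone p1 h2) _
        (e.symm.monotone p2 h4) v hzv hvw
      exact ⟨y ⊔ y', hyy, ((e (pr x hx)).2.1 _ h1 _ h3).1, q⟩⟩
  have hle : e (pr x hx) ≤ e U := by
    intro y hy
    have hy1 : 1 ≤ (y ⊔ 1) ⊔ y⁻¹ := le_sup_right.trans le_sup_left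
    have hy2 : (y ⊔ 1) ⊔ y⁻¹ ∈ (e (pr x hx)).1 :=
      ((e (pr x hx)).2.1 _ ((e (pr x hx)).2.1 _ hy _ (one_mem _)).1 _ (inv_mem hy)).1
    have h3 : pr _ hy1 ≤ e U := by
      rw [← e.symm_apply_le]
      intro z hz
      exact ⟨_, hy1, hy2, hz⟩
    apply h3
    exact mem_pr.2 ⟨1, by rw [pow_one]; exact le_sup_left.trans le_sup_left,
      by rw [pow_one]; exact le_sup_right⟩
  have hxU : x ∈ U.1 := (e.le_iff_le.1 hle) (mem_pr_self hx)
  obtain ⟨y, hy, h1, h2⟩ := hxU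
  refine ⟨y, hy, le_antisymm ?_ ((pr_le hy _).2 h1)⟩
  rw [← e.le_symm_apply]
  exact (pr_le hx _).2 h2

end Iso

end Pool.Agent.H815
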