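import Pool.Agent.H815.CL8

set_option autoImplicit false
set_option linter.unusedSectionVars false
set_option linter.unusedVariables false
set_option linter.style.haveILetI false

namespace Pool.Agent.H815

section Quot

variable {A : Type} [CommGroup A] [Lattice A] [MulLeftMono A] [MulRightMono A]

/-- The totally ordered quotient by a prime convex `l`-subgroup. -/
lemma exists_quot (Q : CS A) (hQ : ∀ x : A, x ⊔ 1 ∈ Q.1 ∨ x⁻¹ ⊔ 1 ∈ Q.1) :
    ∃ (L : Type) (_ : CommGroup L) (_ : LinearOrder L) (_ : IsOrderedMonoid L) (ρ : A →* L),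
      (∀ x y, ρ (x ⊔ y) = ρ x ⊔ ρ y) ∧ ∀ x, ρ x = 1 ↔ x ∈ Q.1 := by
  classical
  let C : GroupCone (A ⧸ Q.1) :=
    { carrier := {z | ∃ a : A, 1 ≤ a ∧ (QuotientGroup.mk' Q.1 a) = z}
      mul_mem' := by
        rintro z w ⟨a, ha, rfl⟩ ⟨b, hb, rfl⟩
        exact ⟨a * b, one_le_mul ha hb, map_mul _ _ _⟩
      one_mem' := ⟨1, le_rfl, map_one _⟩
      eq_one_of_mem_of_inv_mem' := by
        rintro z ⟨a, ha, rfl⟩ ⟨b, hb, hab⟩
        have h1 : QuotientGroup.mk' Q.1 (a * b) = 1 := by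
          rw [map_mul, hab, mul_inv_cancel]
        have h2 : a * b ∈ Q.1 := by
          rw [← QuotientGroup.ker_mk' Q.1]; exact h1
        have h3 : a ∈ Q.1 := Q.2.2 1 (one_mem _) _ h2 a ha (le_mul_of_one_le_right' hb)
        rw [← QuotientGroup.ker_mk' Q.1] at h3
        exact h3 }
  have mem_C : ∀ z, z ∈ C ↔ ∃ a : A, 1 ≤ a ∧ (QuotientGroup.mk' Q.1 a) = z := fun z => Iff.rfl
  have ker_mem : ∀ x : A, QuotientGroup.mk' Q.1 x = 1 ↔ x ∈ Q.1 := by
    intro x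
    conv_rhs => rw [← QuotientGroup.ker_mk' Q.1]
    rfl
  haveI : HasMemOrInvMem C := ⟨by
    intro z
    obtain ⟨x, rfl⟩ := QuotientGroup.mk'_surjective Q.1 z
    rcases hQ x with h | h
    · right
      refine ⟨x⁻¹ ⊔ 1, le_sup_right, ?_⟩
      have e : x⁻¹ ⊔ 1 = x⁻¹ * (x ⊔ 1) := by rw [mul_sup, inv_mul_cancel, mul_one, sup_comm]
      rw [e, map_mul, map_inv, (ker_mem _).2 h, mul_one]
    · left
      refine ⟨x ⊔ 1, le_sup_right, ?_⟩
      have e : x ⊔ 1 = x * (x⁻¹ ⊔ 1) := by rw [mul_sup, mul_inv_cancel, mul_one, sup_comm]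
      rw [e, map_mul, (ker_mem _).2 h, mul_one]⟩
  letI lo : LinearOrder (A ⧸ Q.1) := LinearOrder.mkOfGroupCone C
  haveI om : IsOrderedMonoid (A ⧸ Q.1) := IsOrderedMonoid.mkOfCone C
  have hle : ∀ z w : A ⧸ Q.1, z ≤ w ↔ w / z ∈ C := fun z w => Iff.rfl
  have hmono : ∀ {x y : A}, x ≤ y → QuotientGroup.mk' Q.1 x ≤ QuotientGroup.mk' Q.1 y := by
    intro x y hxy
    rw [hle]
    exact ⟨y / x, one_le_div'.2 hxy, map_div _ _ _⟩
  have key : ∀ x y : A, QuotientGroup.mk' Q.1 x ≤ QuotientGroup.mk' Q.1 y →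
      QuotientGroup.mk' Q.1 (x ⊔ y) = QuotientGroup.mk' Q.1 y := by
    intro x y hxy
    apply le_antisymm
    · rw [hle] at hxy
      obtain ⟨a, ha, hxa⟩ := hxy
      have h1 : a * (x / y) ∈ Q.1 := by
        rw [← ker_mem, map_mul, hxa, map_div, div_mul_div_cancel, div_self']
      have h2 : x ≤ y * (a * (x / y)) := by
        have e : y * (a * (x / y)) = a * x := by
          rw [mul_left_comm, mul_div_cancel]
        rw [e]
        exact le_mul_of_one_le_left' ha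
      have h3 : x ⊔ y ≤ y * (a * (x / y) ⊔ 1) := by
        rw [mul_sup, mul_one]
        exact sup_le_sup_right h2 y
      have h4 : a * (x / y) ⊔ 1 ∈ Q.1 := (Q.2.1 _ h1 _ (one_mem _)).1
      refine (hmono h3).trans ?_
      rw [map_mul, (ker_mem _).2 h4, mul_one]
    · exact hmono le_sup_right
  refine ⟨A ⧸ Q.1, inferInstance, lo, om, QuotientGroup.mk' Q.1, ?_, ker_mem⟩
  intro x y
  rcases le_total (QuotientGroup.mk' Q.1 x) (QuotientGroup.mk' Q.1 y) with h | h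
  · rw [key x y h, sup_eq_right.2 h]
  · rw [sup_comm, key y x h, sup_eq_left.2 h]

end Quot

section Point

variable {X A H : Type} [Group X] [Lattice X] [MulLeftMono X] [MulRightMono X]
  [CommGroup A] [Lattice A] [MulLeftMono A] [MulRightMono A]
  [Group H] [LinearOrder H] [MulLeftMono H] [MulRightMono H]

lemma map_mono_of_sup {L : Type} [Group L] [Lattice L] {π : X →* L}
    (hπ : ∀ x y, π (x ⊔ y) = π x ⊔ π y) {a b : X} (hab : a ≤ b) : π a ≤ π b := by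
  rw [← sup_eq_right.2 hab, hπ]
  exact le_sup_left

lemma one_le_map {L : Type} [Group L] [Lattice L] {π : X →* L}
    (hπ : ∀ x y, π (x ⊔ y) = π x ⊔ π y) {a : X} (ha : 1 ≤ a) : 1 ≤ π a := by
  have := map_mono_of_sup hπ ha
  rwa [map_one] at this

lemma prime_image (e : CS X ≃o CS A) (π : X →* H) (hπ : ∀ x y, π (x ⊔ y) = π x ⊔ π y) (x : A) :
    x ⊔ 1 ∈ (e (ke π hπ)).1 ∨ x⁻¹ ⊔ 1 ∈ (e (ke π hπ)).1 := by
  have hu : (1 : A) ≤ x ⊔ 1 := le_sup_right
  have hv : (1 : A) ≤ x⁻¹ ⊔ 1 := le_sup_right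
  have huv : (x ⊔ 1) ⊓ (x⁻¹ ⊔ 1) = 1 := by
    have e1 : x ⊔ 1 = x * (x⁻¹ ⊔ 1) := by rw [mul_sup, mul_inv_cancel, mul_one, sup_comm]
    have e2 : (x ⊔ 1) ⊓ (x⁻¹ ⊔ 1) = (x ⊓ 1) * (x⁻¹ ⊔ 1) := by
      rw [inf_mul, one_mul, ← e1]
    rw [e2]
    have e3 : (x ⊓ 1) = (x⁻¹ ⊔ 1)⁻¹ := by rw [inv_sup, inv_inv, inv_one]
    rw [e3, inv_mul_cancel]
  obtain ⟨w, hw, hw'⟩ := exists_pr e.symm (x ⊔ 1) hu
  obtain ⟨v, hv1, hv'⟩ := exists_pr e.symm (x⁻¹ ⊔ 1) hv
  have hwv : w ⊓ v = 1 := by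
    have hc : 1 ≤ w ⊓ v := le_inf hw hv1
    have h1 : pr (w ⊓ v) hc ≤ e.symm (pr _ hu) := by
      rw [hw', pr_le]
      exact mem_pr.2 ⟨1, by rw [pow_one]; exact inf_le_left,
        by rw [pow_one]; exact (Left.inv_le_one_iff.2 hc).trans hw⟩
    have h2 : pr (w ⊓ v) hc ≤ e.symm (pr _ hv) := by
      rw [hv', pr_le]
      exact mem_pr.2 ⟨1, by rw [pow_one]; exact inf_le_right,
        by rw [pow_one]; exact (Left.inv_le_one_iff.2 hc).trans hv1⟩
    rw [e.le_symm_apply] at h1 h2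
    have h3 : e (pr (w ⊓ v) hc) ≤ e (pr 1 le_rfl) := by
      intro z hz
      obtain ⟨n, n1, n2⟩ := mem_pr.1 (h1 hz)
      obtain ⟨m, m1, m2⟩ := mem_pr.1 (h2 hz)
      have h4 := inf_pow_one hu hv huv n m
      have h5 : z ≤ 1 := by rw [← h4]; exact le_inf n1 m1
      have h6 : z⁻¹ ≤ 1 := by rw [← h4]; exact le_inf n2 m2
      have h7 : z = 1 := le_antisymm h5 (by rwa [Left.inv_le_one_iff] at h6)
      rw [h7]
      exact one_mem _
    have h4 := e.le_iff_le.1 h3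
    obtain ⟨k, k1, -⟩ := mem_pr.1 (h4 (mem_pr_self hc))
    rw [one_pow] at k1
    exact le_antisymm k1 hc
  have hinf : π (w ⊓ v) = π w ⊓ π v := by
    have : w ⊓ v = (w⁻¹ ⊔ v⁻¹)⁻¹ := by rw [inv_sup, inv_inv, inv_inv]
    rw [this, map_inv, hπ, map_inv, map_inv, inv_sup, inv_inv, inv_inv]
  rw [hwv, map_one] at hinf
  rcases le_total (π w) (π v) with h | h
  · left
    rw [inf_eq_left.2 h] at hinf
    rw [← pr_le hu, ← e.symm_apply_le, hw', pr_le]
    exact mem_ke.2 hinf.symm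
  · right
    rw [inf_eq_right.2 h] at hinf
    rw [← pr_le hv, ← e.symm_apply_le, hv', pr_le]
    exact mem_ke.2 hinf.symm

/-- The totally ordered abelian group at a point. -/
lemma exists_point (e : CS X ≃o CS A) (π : X →* H) (hπ : ∀ x y, π (x ⊔ y) = π x ⊔ π y) :
    ∃ (L : Type) (_ : CommGroup L) (_ : LinearOrder L) (_ : IsOrderedMonoid L) (ρ : A →* L),
      (∀ x y, ρ (x ⊔ y) = ρ x ⊔ ρ y) ∧
      (∀ (x : A) (w : X) (hw : 1 ≤ w), e (pr w hw) = pr (x ⊔ 1) le_sup_right →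
        (1 < ρ x ↔ π w ≠ 1)) ∧
      (∀ (w w' : X) (u u' : A) (hw : 1 ≤ w) (hw' : 1 ≤ w') (hu : 1 ≤ u) (hu' : 1 ≤ u'),
        e (pr w hw) = pr u hu → e (pr w' hw') = pr u' hu' →
        (Dom (ρ u) (ρ u') ↔ Dom (π w) (π w'))) := by
  obtain ⟨L, i1, i2, i3, ρ, h1, h2⟩ := exists_quot (e (ke π hπ)) (prime_image e π hπ)
  have hke : ke ρ h1 = e (ke π hπ) := by
    apply Subtype.ext
    ext x
    rw [mem_ke, h2]
  refine ⟨L, i1, i2, i3, ρ, h1, ?_, ?_⟩
  · intro x w hw hx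
    have a1 : ρ x ≤ 1 ↔ π w = 1 := by
      rw [← mem_ke (hπ := hπ), ← pr_le hw, ← e.le_iff_le, hx, pr_le, ← h2, h1, map_one,
        sup_eq_right]
    rw [← not_le, a1]
  · intro w w' u u' hw hw' hu hu' e1 e2
    have hπw' := one_le_map hπ hw'
    have hρu' := one_le_map h1 hu'
    have hπw := one_le_map hπ hw
    have hρu := one_le_map h1 hu
    have b1 : w' ∈ (cp π hπ (π w') hπw').1 := ⟨1, by simp, by
      rw [pow_one]; exact (Left.inv_le_one_iff.2 hπw').trans hπw'⟩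
    have b2 : ke π hπ ≤ cp π hπ (π w') hπw' := by
      intro y hy
      exact ⟨0, by rw [mem_ke.1 hy, pow_zero], by rw [mem_ke.1 hy, pow_zero, inv_one]⟩
    have b3 : u' ∈ (cp ρ h1 (ρ u') hρu').1 := ⟨1, by simp, by
      rw [pow_one]; exact (Left.inv_le_one_iff.2 hρu').trans hρu'⟩
    have b4 : ke ρ h1 ≤ cp ρ h1 (ρ u') hρu' := by
      intro y hy
      exact ⟨0, by rw [mem_ke.1 hy, pow_zero], by rw [mem_ke.1 hy, pow_zero, inv_one]⟩
    have hJ : e (cp π hπ (π w') hπw') = cp ρ h1 (ρ u') hρu' := by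
      apply le_antisymm
      · rw [← e.le_symm_apply]
        apply cp_least π hπ hw'
        · rw [← pr_le hw', e.le_symm_apply, e2, pr_le]
          exact b3
        · rw [e.le_symm_apply, ← hke]
          exact b4
      · apply cp_least ρ h1 hu'
        · rw [← pr_le hu', ← e2, e.le_iff_le, pr_le]
          exact b1
        · rw [hke, e.le_iff_le]
          exact b2
    have c1 : u ∈ (cp ρ h1 (ρ u') hρu').1 ↔ w ∈ (cp π hπ (π w') hπw').1 := by
      rw [← pr_le hu, ← hJ, ← e1, e.le_iff_le, pr_le]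
    have c2 : Dom (ρ u) (ρ u') ↔ u ∈ (cp ρ h1 (ρ u') hρu').1 := by
      constructor
      · rintro ⟨k, hk⟩
        exact ⟨k, hk, (Left.inv_le_one_iff.2 hρu).trans (one_le_pow_of_one_le' hρu' k)⟩
      · rintro ⟨k, hk, -⟩
        exact ⟨k, hk⟩
    have c3 : Dom (π w) (π w') ↔ w ∈ (cp π hπ (π w') hπw').1 := by
      constructor
      · rintro ⟨k, hk⟩
        exact ⟨k, hk, (Left.inv_le_one_iff.2 hπw).trans (one_le_pow_of_one_le' hπw' k)⟩
      · rintro ⟨k, hk, -⟩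
        exact ⟨k, hk⟩
    rw [c2, c1, c3]

end Point

end Pool.Agent.H815
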